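import Pool.Agent.Y148.BB.Curve

/-!
# Correspondences supported on graphs, and compositions with decomposable correspondences
-/

open CategoryTheory AlgebraicGeometry

universe u v w

namespace Pool.Agent.Y148.BB

open Pool.Agent.H914 Pool.Agent.H914.VarClass Pool.Agent.H914.VarClass.Obj Pool.Agent.W492.BB
  Pool.Agent.W550.Corr Pool.Agent.TH133

set_option linter.unusedSectionVars false
set_option linter.unusedVariables false

variable {k : Type u} [Field k] {𝒱 : VarClass k}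

section chow

variable {C : TheoryData.{u, v, 0} 𝒱 ℚ} [hC : IsChowProj C] {X Y Z W T P V M N X' Y' : 𝒱.Obj}

/-- The class `w` on the graph of `a : M ⟶ X`. -/
noncomputable def wg (C : TheoryData.{u, v, 0} 𝒱 ℚ) {M X : 𝒱.Obj} (a : M ⟶ X) (w : C.A M) :
    C.A (M.prod X) := C.push (Obj.lift (𝟙 M) a) w

include hC

lemma gr_congr {X : 𝒱.Obj} {i j : ℤ} (h : i = j) {z : C.A X} (hz : z ∈ C.gr X i) :
    z ∈ C.gr X j := h ▸ hz

lemma tens_comp'' {X Y X' Z W Z' : 𝒱.Obj} (Γ : C.A (X.prod Y)) (Δ : C.A (Z.prod W))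
    (Γ' : C.A (Y.prod X')) (Δ' : C.A (W.prod Z')) :
    C.comp (tens C Γ Δ) (tens C Γ' Δ') = tens C (C.comp Γ Γ') (C.comp Δ Δ') :=
  tens_comp C (ch_comm C) _ _ _ _

lemma comp_ext (Γ : C.A (X.prod Y)) (a : C.A Y) (b : C.A W) :
    C.comp Γ (C.ext a b) = C.ext (C.act (tp C Γ) a) b := by
  have h1 := act_tens C (ch_comm C) (tp C Γ) (dg C W) (C.ext a b)
  rw [tp_tp, comp_dg, act_tens_ext C (tp C Γ) (dg C W) (fun f c => ch_comm C _ _), act_dg] at h1
  exact h1.symm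

lemma ext_comp (a : C.A X) (b : C.A Y) (Γ : C.A (Y.prod Z)) :
    C.comp (C.ext a b) Γ = C.ext a (C.act Γ b) := by
  have h1 : C.comp (C.ext a b) Γ = tp C (C.comp (tp C Γ) (C.ext b a)) := by
    rw [tp_comp C (ch_comm C), tp_tp, tp_ext]
  rw [h1, comp_ext, tp_ext, tp_tp]

lemma comp_graph (i : Y ⟶ Z) (Γ : C.A (X.prod Y)) :
    C.comp Γ (C.graph i) = C.push (prodMap (𝟙 X) i) Γ := by
  rw [comp_eq_extR, extR_graph]

lemma wg_mem (a : M ⟶ X) {w : C.A M} {i : ℤ} (hw : w ∈ C.gr M i) :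
    wg C a w ∈ C.gr (M.prod X) (i + X.dim) := by
  have h := C.push_mem (Obj.lift (𝟙 M) a) hw
  have e1 : i + 1 * (((M.prod X).dim : ℤ) - (M.dim : ℤ)) = i + X.dim := by
    rw [dim_prod]; push_cast; ring
  rwa [e1] at h

lemma wg_comp (a : M ⟶ X) (w : C.A M) (Γ : C.A (X.prod Y)) :
    C.comp (wg C a w) Γ = C.pull (prodMap a (𝟙 Y)) Γ * C.pull (fst M Y) w := by
  have e1 : prodMap (Obj.lift (𝟙 M) a) (𝟙 Y) ≫ t13 M X Y = 𝟙 _ := by
    apply prod_ext <;> simp [t13]
  have e2 : prodMap (Obj.lift (𝟙 M) a) (𝟙 Y) ≫ t23 M X Y = prodMap a (𝟙 Y) := by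
    apply prod_ext <;> simp [t23]
  rw [TheoryData.comp, wg, C.base_fst, ← C.proj_left, ← C.push_comp, ← C.pull_comp, e1, e2,
    C.push_id]

lemma comp_tp_wg (b : N ⟶ Y) (u : C.A N) (Γ : C.A (X.prod Y)) :
    C.comp Γ (tp C (wg C b u)) = C.pull (prodMap (𝟙 X) b) Γ * C.pull (snd X N) u := by
  have h1 : C.comp Γ (tp C (wg C b u)) = tp C (C.comp (wg C b u) (tp C Γ)) := by
    rw [tp_comp C (ch_comm C), tp_tp]
  have e1 : sw X N ≫ prodMap b (𝟙 X) ≫ sw Y X = prodMap (𝟙 X) b := by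
    apply prod_ext <;> simp [sw, prodMap, comp_lift]
  have e2 : sw X N ≫ fst N X = snd X N := lift_fst _ _
  rw [h1, wg_comp, tp, map_mul, ← C.pull_comp, ← C.pull_comp, tp, ← C.pull_comp, e2,
    Category.assoc, e1]

lemma pull_eq_comp (b : N ⟶ Y) (Γ : C.A (X.prod Y)) :
    C.pull (prodMap (𝟙 X) b) Γ = C.comp Γ (tp C (C.graph b)) := by
  have h1 := comp_tp_wg b 1 Γ
  rw [map_one, mul_one] at h1
  exact h1.symm

lemma wg_comp_comp (a : M ⟶ X) (b : N ⟶ Y) (w : C.A M) (u : C.A N) (Γ : C.A (X.prod Y)) :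
    C.comp (wg C a w) (C.comp Γ (tp C (wg C b u))) =
      C.pull (prodMap a b) Γ * C.ext w u := by
  have e1 : prodMap a (𝟙 N) ≫ prodMap (𝟙 X) b = prodMap a b := by
    rw [prodMap_comp, Category.id_comp, Category.comp_id]
  have e2 : prodMap a (𝟙 N) ≫ snd X N = snd M N := by
    rw [prodMap_snd, Category.comp_id]
  rw [wg_comp, comp_tp_wg, map_mul, ← C.pull_comp, ← C.pull_comp, e1, e2, mul_assoc,
    ch_comm C (C.pull (snd M N) u)]
  rfl

/-- Products with decomposable correspondences (on the right). -/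
lemma tens_ext_right (Γ : C.A (X.prod Y)) (v : C.A Z) (u : C.A W) :
    tens C Γ (C.ext v u) = C.comp (wg C (fst X Z) (C.pull (snd X Z) v))
      (C.comp Γ (tp C (wg C (fst Y W) (C.pull (snd Y W) u)))) := by
  rw [wg_comp_comp, tens, TheoryData.ext, TheoryData.ext, map_mul, ← C.pull_comp, ← C.pull_comp,
    ← C.pull_comp, ← C.pull_comp, prodMap_fst, prodMap_snd]

/-- Products with decomposable correspondences (on the left). -/
lemma tens_ext_left (Γ : C.A (X.prod Y)) (v : C.A Z) (u : C.A W) :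
    tens C (C.ext v u) Γ = C.comp (wg C (snd Z X) (C.pull (fst Z X) v))
      (C.comp Γ (tp C (wg C (snd W Y) (C.pull (fst W Y) u)))) := by
  rw [wg_comp_comp, tens, ch_comm C, TheoryData.ext, TheoryData.ext, map_mul, ← C.pull_comp,
    ← C.pull_comp, ← C.pull_comp, ← C.pull_comp, prodMap_fst, prodMap_snd]

lemma tens_ext_ext (v : C.A X) (u : C.A Y) (v' : C.A Z) (u' : C.A W) :
    tens C (C.ext v u) (C.ext v' u') = C.ext (C.ext v v') (C.ext u u') := by
  simp only [tens, TheoryData.ext, map_mul, ← C.pull_comp, prodMap_fst, prodMap_snd]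
  generalize C.pull _ v = a
  generalize C.pull _ u = b
  generalize C.pull _ v' = c
  generalize C.pull _ u' = d
  rw [mul_assoc, mul_assoc, ← mul_assoc b c d, ch_comm C b c, mul_assoc]

lemma cograph_mem (f : X ⟶ Y) : C.cograph f ∈ C.gr (Y.prod X) Y.dim := by
  have h := C.push_mem (Obj.lift f (𝟙 X)) (C.one_mem X)
  have e1 : (0 : ℤ) + 1 * (((Y.prod X).dim : ℤ) - (X.dim : ℤ)) = Y.dim := by
    rw [dim_prod]; push_cast; ring
  rwa [e1] at h

end chow

end Pool.Agent.Y148.BB
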