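import Pool.Agent.Y148.BB.Defs
import Pool.Agent.TH133.Hyper

/-!
# Chow-Kunneth decompositions of curves, and the odd parts of products of curves
-/

open CategoryTheory AlgebraicGeometry

universe u v w

namespace Pool.Agent.Y148.BB

open Pool.Agent.H914 Pool.Agent.H914.VarClass Pool.Agent.H914.VarClass.Obj Pool.Agent.W492.BB
  Pool.Agent.W550.Corr Pool.Agent.TH133

set_option linter.unusedSectionVars false
set_option linter.unusedVariables false

variable {k : Type u} [Field k] {𝒱 : VarClass k}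

section chow

variable {C : TheoryData.{u, v, 0} 𝒱 ℚ} [hC : IsChowProj C] {X Y Z W T : 𝒱.Obj}

include hC

lemma hasDegree_of_ne {x : C.A X} {i : ℤ} (hx : x ∈ C.gr X i) (hi : i ≠ X.dim) :
    HasDegree C x 0 := by
  intro Y
  rcases lt_or_gt_of_ne hi with h | h
  · constructor
    · have h2 := C.push_mem (snd X Y) (C.pull_mem (fst X Y) hx)
      rw [C.gr_neg Y _ (by rw [dim_prod]; push_cast; omega)] at h2
      rw [(Submodule.mem_bot _).1 h2, zero_smul]
    · have h2 := C.push_mem (fst Y X) (C.pull_mem (snd Y X) hx)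
      rw [C.gr_neg Y _ (by rw [dim_prod]; push_cast; omega)] at h2
      rw [(Submodule.mem_bot _).1 h2, zero_smul]
  · rw [hC.gr_top X i x hx h]
    exact hasDegree_zero Y

lemma ext_smul_right (q : ℚ) (a : C.A X) (b : C.A Y) : C.ext a (q • b) = q • C.ext a b := by
  rw [TheoryData.ext, map_smul, mul_smul_comm]
  rfl

variable {o : C.A T}

lemma e0_e0 (hd : HasDegree C o 1) : C.comp (C.ext o (1 : C.A T)) (C.ext o (1 : C.A T)) =
    C.ext o (1 : C.A T) := by
  rw [comp_ext_ext (q := 1) (by rwa [one_mul]), one_smul]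

lemma e2_e2 (hd : HasDegree C o 1) : C.comp (C.ext (1 : C.A T) o) (C.ext (1 : C.A T) o) =
    C.ext (1 : C.A T) o := by
  rw [comp_ext_ext (q := 1) (by rwa [mul_one]), one_smul]

lemma e0_e2 (hT : T.dim = 1) : C.comp (C.ext o (1 : C.A T)) (C.ext (1 : C.A T) o) = 0 := by
  rw [comp_ext_ext (q := 0), zero_smul]
  rw [one_mul]
  exact hasDegree_of_ne (i := 0) (C.one_mem T) (by rw [hT]; norm_num)

lemma e2_e0 (hT : T.dim = 1) (ho : C.Deg 1 o) :
    C.comp (C.ext (1 : C.A T) o) (C.ext o (1 : C.A T)) = 0 := by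
  rw [comp_ext_ext (q := 0), zero_smul]
  exact hasDegree_of_ne (i := 1 + 1) (C.mul_mem ho ho) (by rw [hT]; norm_num)

lemma e0_mem (hT : T.dim = 1) (ho : C.Deg 1 o) :
    C.ext o (1 : C.A T) ∈ C.gr (T.prod T) T.dim := by
  have := ext_mem' (C := C) ho (C.one_mem T)
  rw [hT]
  exact_mod_cast this

lemma e2_mem (hT : T.dim = 1) (ho : C.Deg 1 o) :
    C.ext (1 : C.A T) o ∈ C.gr (T.prod T) T.dim := by
  have := ext_mem' (C := C) (C.one_mem T) ho
  rw [hT]
  exact_mod_cast this

lemma odd_mem (hT : T.dim = 1) (ho : C.Deg 1 o) : oddProj C o ∈ C.gr (T.prod T) T.dim :=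
  Submodule.sub_mem _ (Submodule.sub_mem _ (dg_mem C T) (e0_mem hT ho)) (e2_mem hT ho)

lemma e0_odd (hT : T.dim = 1) (ho : C.Deg 1 o) (hd : HasDegree C o 1) :
    C.comp (C.ext o (1 : C.A T)) (oddProj C o) = 0 := by
  rw [oddProj, comp_sub, comp_sub, comp_dg, e0_e0 hd, e0_e2 hT, sub_self, sub_zero]

lemma e2_odd (hT : T.dim = 1) (ho : C.Deg 1 o) (hd : HasDegree C o 1) :
    C.comp (C.ext (1 : C.A T) o) (oddProj C o) = 0 := by
  rw [oddProj, comp_sub, comp_sub, comp_dg, e2_e2 hd, e2_e0 hT ho, sub_zero, sub_self]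

lemma odd_e0 (hT : T.dim = 1) (ho : C.Deg 1 o) (hd : HasDegree C o 1) :
    C.comp (oddProj C o) (C.ext o (1 : C.A T)) = 0 := by
  rw [oddProj, sub_comp, sub_comp, dg_comp, e0_e0 hd, e2_e0 hT ho, sub_self, sub_zero]

lemma odd_e2 (hT : T.dim = 1) (ho : C.Deg 1 o) (hd : HasDegree C o 1) :
    C.comp (oddProj C o) (C.ext (1 : C.A T) o) = 0 := by
  rw [oddProj, sub_comp, sub_comp, dg_comp, e2_e2 hd, e0_e2 hT, sub_zero, sub_self]

lemma odd_odd (hT : T.dim = 1) (ho : C.Deg 1 o) (hd : HasDegree C o 1) :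
    C.comp (oddProj C o) (oddProj C o) = oddProj C o := by
  have h : C.comp (oddProj C o) (oddProj C o) =
    C.comp (dg C T - C.ext o 1 - C.ext 1 o) (oddProj C o) := rfl
  rw [h, sub_comp, sub_comp, dg_comp, e0_odd hT ho hd, e2_odd hT ho hd, sub_zero, sub_zero]

lemma tp_odd (o : C.A T) : tp C (oddProj C o) = oddProj C o := by
  rw [oddProj, tp_sub, tp_sub, tp_dg, tp_ext, tp_ext, sub_right_comm]

/-- The Chow-Kunneth decomposition of a curve given by the zero-cycle `o` of degree one. -/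
noncomputable def curveCK (C : TheoryData.{u, v, 0} 𝒱 ℚ) {T : 𝒱.Obj} (o : C.A T) :
    ℕ → C.A (T.prod T)
  | 0 => C.ext o 1
  | 1 => oddProj C o
  | 2 => C.ext 1 o
  | _ => 0

lemma curveCK_comp (hT : T.dim = 1) (ho : C.Deg 1 o) (hd : HasDegree C o 1) (i j : ℕ) :
    C.comp (curveCK C o i) (curveCK C o j) = if i = j then curveCK C o i else 0 := by
  match i, j with
  | 0, 0 => exact e0_e0 hd
  | 0, 1 => exact e0_odd hT ho hd
  | 0, 2 => exact e0_e2 hT
  | 1, 0 => exact odd_e0 hT ho hd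
  | 1, 1 => exact odd_odd hT ho hd
  | 1, 2 => exact odd_e2 hT ho hd
  | 2, 0 => exact e2_e0 hT ho
  | 2, 1 => exact e2_odd hT ho hd
  | 2, 2 => exact e2_e2 hd
  | (i + 3), j =>
    have : curveCK C o (i + 3) = 0 := rfl
    rw [this, zero_comp]
    split_ifs <;> rfl
  | 0, (j + 3) =>
    have : curveCK C o (j + 3) = 0 := rfl
    rw [this, comp_zero, if_neg (by omega)]
  | 1, (j + 3) =>
    have : curveCK C o (j + 3) = 0 := rfl
    rw [this, comp_zero, if_neg (by omega)]
  | 2, (j + 3) =>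
    have : curveCK C o (j + 3) = 0 := rfl
    rw [this, comp_zero, if_neg (by omega)]

end chow

section weil

variable {C : TheoryData.{u, v, 0} 𝒱 ℚ} [hC : IsChowProj C] {K : Type w} [Field K]
  (H : WeilTheoryData.{u, v, w} C K) [hH : IsWeilProj H] {X Y Z W T : 𝒱.Obj} {o : C.A T}

include hC hH

lemma act_e0_zero (ho : C.Deg T.dim o) (hd : HasDegree C o 1) {a : H.A T} (ha : a ∈ H.gr T 0) :
    H.act (H.cl (C.ext o (1 : C.A T))) a = a := by
  obtain ⟨c, rfl⟩ := hH.gr_zero T a ha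
  rw [act_map_smul, ← map_one H.cl, ← cl_act H, act_ext' (q := 1) (by rwa [mul_one]), one_smul]

lemma cl_o_ne (ho : C.Deg T.dim o) (hd : HasDegree C o 1) : H.cl o ≠ 0 := by
  intro h
  have h1 := act_e0_zero H ho hd (H.one_mem T)
  have h2 : H.cl (C.ext o (1 : C.A T)) = 0 := by
    rw [TheoryData.ext, map_mul, H.cl_pull, h, map_zero, zero_mul]
  rw [h2, TheoryData.act_zero] at h1
  exact hH.one_ne_zero T h1.symm

lemma tr_mul_eq_zero (x : H.A T) (hx : x ∈ H.gr T (2 * T.dim)) (h : H.tr T x = 0) : x = 0 := by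
  apply H.nondeg
  have h0 : (H.tr T ∘ₗ LinearMap.mulLeft K x) = 0 := by
    apply ext_gr H
    intro j b hb
    rw [LinearMap.comp_apply, LinearMap.mulLeft_apply, LinearMap.zero_apply]
    by_cases hj : j = 0
    · subst hj
      obtain ⟨c, rfl⟩ := hH.gr_zero T b hb
      rw [mul_smul_comm, mul_one, map_smul, h, smul_zero]
    · exact tr_zero H (H.mul_mem hx hb) (by omega)
  intro b
  exact LinearMap.congr_fun h0 b

lemma top_eq (ho : C.Deg T.dim o) (hd : HasDegree C o 1) {a : H.A T}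
    (ha : a ∈ H.gr T (2 * T.dim)) : ∃ c : K, a = c • H.cl o := by
  have h1 : H.tr T (H.cl o) ≠ 0 := by
    intro h
    exact cl_o_ne H ho hd (tr_mul_eq_zero H _ (H.cl_mem ho) h)
  refine ⟨H.tr T a * (H.tr T (H.cl o))⁻¹, ?_⟩
  rw [← sub_eq_zero]
  apply tr_mul_eq_zero H
  · exact Submodule.sub_mem _ ha (Submodule.smul_mem _ _ (H.cl_mem ho))
  · rw [map_sub, map_smul, smul_eq_mul, mul_assoc, inv_mul_cancel₀ h1, mul_one, sub_self]

lemma act_e2_two (ho : C.Deg T.dim o) (hd : HasDegree C o 1) {a : H.A T}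
    (ha : a ∈ H.gr T (2 * T.dim)) : H.act (H.cl (C.ext (1 : C.A T) o)) a = a := by
  obtain ⟨c, rfl⟩ := top_eq H ho hd ha
  rw [act_map_smul, ← cl_act H, act_ext' (q := 1) (by rwa [one_mul]), one_smul]

lemma act_e0_ne (hT : T.dim = 1) (ho : C.Deg 1 o) {m : ℤ} (hm : m ≠ 0) {a : H.A T}
    (ha : a ∈ H.gr T m) : H.act (H.cl (C.ext o (1 : C.A T))) a = 0 := by
  apply act_ext_ne (r := 0) (by exact_mod_cast C.one_mem T) _ (by simpa using hm) ha
  rw [hT]
  exact_mod_cast ho

lemma act_e2_ne (hT : T.dim = 1) (ho : C.Deg 1 o) {m : ℤ} (hm : m ≠ 2) {a : H.A T}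
    (ha : a ∈ H.gr T m) : H.act (H.cl (C.ext (1 : C.A T) o)) a = 0 := by
  apply act_ext_ne (r := 1) (by exact_mod_cast ho) _ (by simpa using hm) ha
  rw [hT]
  have := C.one_mem T
  exact_mod_cast this

lemma curveCK_act (hT : T.dim = 1) (ho : C.Deg 1 o) (hd : HasDegree C o 1) (i : ℕ) (m : ℤ)
    {a : H.A T} (ha : a ∈ H.gr T m) :
    H.act (H.cl (curveCK C o i)) a = if m = i then a else 0 := by
  have ho' : C.Deg T.dim o := by rw [hT]; exact_mod_cast ho
  have h0 : H.act (H.cl (C.ext o (1 : C.A T))) a = if m = 0 then a else 0 := by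
    split_ifs with h
    · exact act_e0_zero H ho' hd (h ▸ ha)
    · exact act_e0_ne H hT ho h ha
  have h2 : H.act (H.cl (C.ext (1 : C.A T) o)) a = if m = 2 then a else 0 := by
    split_ifs with h
    · apply act_e2_two H ho' hd
      have e : (2 * (T.dim : ℤ)) = m := by rw [hT, h]; norm_num
      rw [e]
      exact ha
    · exact act_e2_ne H hT ho h ha
  match i with
  | 0 => exact_mod_cast h0
  | 2 => exact_mod_cast h2
  | 1 =>
    have e1 : curveCK C o 1 = dg C T - C.ext o 1 - C.ext 1 o := rfl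
    rw [e1, map_sub, map_sub, TheoryData.act_sub, TheoryData.act_sub, actH_dg, h0, h2]
    by_cases hm0 : m = 0
    · subst hm0
      simp
    · by_cases hm2 : m = 2
      · subst hm2
        simp
      · rw [if_neg hm0, if_neg hm2, sub_zero, sub_zero]
        by_cases hm1 : m = 1
        · subst hm1
          simp
        · rw [if_neg (by exact_mod_cast hm1)]
          rcases lt_or_gt_of_ne hm0 with h | h
          · rw [H.gr_neg T _ h] at ha
            exact (Submodule.mem_bot _).1 ha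
          · rw [gr_top H (by rw [hT]; push_cast; omega)] at ha
            exact (Submodule.mem_bot _).1 ha
  | (i + 3) =>
    have e1 : curveCK C o (i + 3) = 0 := rfl
    rw [e1, actH_zero]
    split_ifs with h
    · rw [gr_top H (by rw [hT]; push_cast at *; omega)] at ha
      exact ((Submodule.mem_bot _).1 ha).symm
    · rfl

lemma curveCK_isCK (hT : T.dim = 1) (ho : C.Deg 1 o) (hd : HasDegree C o 1) :
    IsCK H T (curveCK C o) where
  deg i := by
    match i with
    | 0 => exact e0_mem hT ho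
    | 1 => exact odd_mem hT ho
    | 2 => exact e2_mem hT ho
    | (i + 3) => exact Submodule.zero_mem _
  out i hi := by
    rw [hT] at hi
    match i, hi with
    | (i + 3), _ => rfl
  idem i := by rw [curveCK_comp hT ho hd, if_pos rfl]
  orth i j hij := by rw [curveCK_comp hT ho hd, if_neg hij]
  sum := by
    rw [hT]
    have e : Finset.range (2 * 1 + 1) = Finset.range 3 := rfl
    rw [e, Finset.sum_range_succ, Finset.sum_range_succ, Finset.sum_range_succ,
      Finset.sum_range_zero]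
    have h0 : curveCK C o 0 = C.ext o 1 := rfl
    have h1 : curveCK C o 1 = dg C T - C.ext o 1 - C.ext 1 o := rfl
    have h2 : curveCK C o 2 = C.ext 1 o := rfl
    rw [h0, h1, h2]
    abel
  act_self i a ha := by
    rw [curveCK_act H hT ho hd i i ha, if_pos rfl]
  act_ne i m a hm ha := by
    rw [curveCK_act H hT ho hd i m ha, if_neg hm]

end weil

end Pool.Agent.Y148.BB
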