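import Pool.Agent.TH133.Ext

/-!
# Bloch-Beilinson filtrations on the Chow groups of complex projective varieties: definitions
-/

open CategoryTheory AlgebraicGeometry

universe u v w

namespace Pool.Agent.Y148.BB

open Pool.Agent.H914 Pool.Agent.H914.VarClass Pool.Agent.H914.VarClass.Obj Pool.Agent.W492.BB
  Pool.Agent.W550.Corr Pool.Agent.TH133

variable {k : Type u} [Field k] {𝒱 : VarClass k}

section defs

variable {C : TheoryData.{u, v, 0} 𝒱 ℚ} {K : Type w} [Field K] (H : WeilTheoryData.{u, v, w} C K)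

/-- The formal properties of the kernels `N X j ⊆ CH^j(X)` of the Abel-Jacobi maps
`CH^j(X)_hom → J^(2j-1)(X) ⊗ ℚ`:
* they consist of homologically trivial classes and are stable under all correspondences;
* a correspondence acting as zero on `H^(2j-1)(X)` maps `CH^j(X)_hom` to the kernel of the
  Abel-Jacobi map of the target;
* the theorem of Abel: the kernel is zero for divisors. -/
structure IsAbelJacobiKernel (N : ∀ X : 𝒱.Obj, ℕ → Submodule ℚ (C.A X)) : Prop where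
  deg : ∀ (X : 𝒱.Obj) (j : ℕ) (z : C.A X), z ∈ N X j → C.Deg j z ∧ H.cl z = 0
  stable : ∀ (X Y : 𝒱.Obj) (j i : ℕ) (Γ : C.A (X.prod Y)), C.Deg (X.dim + i - j) Γ →
    ∀ z ∈ N X j, C.act Γ z ∈ N Y i
  kills : ∀ (X Y : 𝒱.Obj) (j i : ℕ) (Γ : C.A (X.prod Y)), C.Deg (X.dim + i - j) Γ →
    Kills H Γ (2 * j - 1) → ∀ z, C.Deg j z → H.cl z = 0 → C.act Γ z ∈ N Y i
  abel : ∀ (X : 𝒱.Obj) (z : C.A X), z ∈ N X 1 → z = 0

/-- `F X j ν` is the step `F^ν CH^j(X)` of a Bloch-Beilinson filtration on the Chow groups of the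
varieties `X` in the class `S` (conditions 1, 2, 3, 4 of the problem, `N` being the kernels of the
Abel-Jacobi maps). -/
structure IsBlochBeilinsonOn (N : ∀ X : 𝒱.Obj, ℕ → Submodule ℚ (C.A X)) (S : 𝒱.Obj → Prop)
    (F : ∀ X : 𝒱.Obj, ℕ → ℕ → Submodule ℚ (C.A X)) : Prop where
  anti : ∀ X, S X → ∀ j ν : ℕ, F X j (ν + 1) ≤ F X j ν
  zero : ∀ X, S X → ∀ (j : ℕ) (z : C.A X), z ∈ F X j 0 ↔ C.Deg j z
  one : ∀ X, S X → ∀ (j : ℕ) (z : C.A X), z ∈ F X j 1 ↔ C.Deg j z ∧ H.cl z = 0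
  two : ∀ X, S X → ∀ j : ℕ, F X j 2 = N X j
  top : ∀ X, S X → ∀ j : ℕ, F X j (j + 1) = ⊥
  stable : ∀ X Y, S X → S Y → ∀ (j i ν : ℕ) (Γ : C.A (X.prod Y)), C.Deg (X.dim + i - j) Γ →
    ∀ z ∈ F X j ν, C.act Γ z ∈ F Y i ν
  shift : ∀ X Y, S X → S Y → ∀ (j i ν : ℕ) (Γ : C.A (X.prod Y)), C.Deg (X.dim + i - j) Γ →
    Kills H Γ (2 * j - ν) → ∀ z ∈ F X j ν, C.act Γ z ∈ F Y i (ν + 1)

end defs

section curves

variable (C : TheoryData.{u, v, 0} 𝒱 ℚ)

/-- The property of the Chow groups of varieties over an uncountable algebraically closed field that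
a class on `X × T`, `T` a curve, whose restrictions to all the fibres `X × t` vanish, is a sum of
classes `x × t` (Bloch and Srinivas). The restriction of `z` to the fibre `X × t` is the push-forward
to `X` of the intersection of `z` with `X × t`. -/
def FibreProperty : Prop :=
  ∀ (X T : 𝒱.Obj) (j : ℤ) (z : C.A (X.prod T)), T.dim = 1 → C.Deg j z →
    (∀ t : C.A T, C.Deg 1 t → C.down (fst X T) (C.mul z (C.up (snd X T) t)) = 0) →
    z ∈ Submodule.span ℚ {c | ∃ (x : C.A X) (t : C.A T), C.Deg (j - 1) x ∧ C.Deg 1 t ∧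
      c = C.ext x t}

/-- The analogous property for a pencil of curves on the surface `S` through the point `x`: a
class on `P × S` whose restrictions to `P × T` vanish, for all the curves `T → S` which carry a
zero-cycle `o` of degree one with image `x` (such as the smooth members of the pencil), is a sum of
push-forwards of classes on products `P × T` with curves `T → S` (the normalisations of members of
the pencil). -/
def PencilProperty {S : 𝒱.Obj} (x : C.A S) : Prop :=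
  ∀ (P : 𝒱.Obj) (j : ℤ) (z : C.A (P.prod S)), C.Deg j z →
    (∀ (T : 𝒱.Obj) (i : T ⟶ S) (o : C.A T), T.dim = 1 → C.Deg 1 o → HasDegree C o 1 →
      C.down i o = x → C.up (prodMap (𝟙 P) i) z = 0) →
    z ∈ Submodule.span ℚ {c | ∃ (T : 𝒱.Obj) (i : T ⟶ S) (w : C.A (P.prod T)), T.dim = 1 ∧
      C.Deg (j - 1) w ∧ c = C.down (prodMap (𝟙 P) i) w}

/-- The correspondence `Δ_T - o × T - T × o` of the curve `T` with the zero-cycle `o`. -/
noncomputable def oddProj {T : 𝒱.Obj} (o : C.A T) : C.A (T.prod T) :=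
  dg C T - C.ext o 1 - C.ext 1 o

variable {C} {K : Type w} [Field K] (H : WeilTheoryData.{u, v, w} C K)

/-- The correspondence `q` is the projector on the transcendental part `t_2(S)` of the motive of
the surface `S` (Murre; Kahn, Murre, Pedrini): `q` is a self-dual idempotent which acts as zero on
divisors, and there are a zero-cycle `x` of degree one (a point), with a pencil of curves through
it, and a Chow-Kunneth decomposition `π` of `S` such that `π 0 = x × S`, `π 4 = S × x`, `π 1` and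
`π 3` factor through the motives `h^1` of curves, `q` is a direct summand of `π 2`, and `π 2 - q`
is a linear combination of products of divisors. -/
structure IsTranscendental (S : 𝒱.Obj) (q : C.A (S.prod S)) : Prop where
  dim_eq : S.dim = 2
  deg : C.Deg 2 q
  idem : C.comp q q = q
  self_dual : tp C q = q
  divisor : ∀ D : C.A S, C.Deg 1 D → C.act q D = 0
  exists_ck : ∃ (x : C.A S) (π : ℕ → C.A (S.prod S)), C.Deg 2 x ∧ HasDegree C x 1 ∧
    PencilProperty C x ∧ IsCK H S π ∧ π 0 = C.ext x 1 ∧ π 4 = C.ext 1 x ∧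
    C.comp (π 2) q = q ∧
    π 2 - q ∈ Submodule.span ℚ {c | ∃ D D' : C.A S, C.Deg 1 D ∧ C.Deg 1 D' ∧ c = C.ext D D'} ∧
    π 1 ∈ Submodule.span ℚ {c | ∃ (T : 𝒱.Obj) (o : C.A T) (f : C.A (S.prod T))
      (g : C.A (T.prod S)), T.dim = 1 ∧ C.Deg 1 o ∧ HasDegree C o 1 ∧ C.Deg 2 f ∧ C.Deg 1 g ∧
      c = C.comp f (C.comp (oddProj C o) g)} ∧
    π 3 ∈ Submodule.span ℚ {c | ∃ (T : 𝒱.Obj) (o : C.A T) (f : C.A (S.prod T))
      (g : C.A (T.prod S)), T.dim = 1 ∧ C.Deg 1 o ∧ HasDegree C o 1 ∧ C.Deg 1 f ∧ C.Deg 2 g ∧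
      c = C.comp f (C.comp (oddProj C o) g)}

/-- `IsFactor Q m T r`: either `T` is a curve, `m = 1` and `r` is the projector
`Δ - o × T - T × o` on `h^1(T)`, with `o` a zero-cycle of degree one; or `m = 2` and `Q T r`
(`T` is a surface and `r` is the projector on `t_2(T)`). -/
inductive IsFactor (Q : ∀ S : 𝒱.Obj, C.A (S.prod S) → Prop) :
    ℕ → (T : 𝒱.Obj) → C.A (T.prod T) → Prop
  | curve (T : 𝒱.Obj) (o : C.A T) (hT : T.dim = 1) (ho : C.Deg 1 o) (hd : HasDegree C o 1) :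
      IsFactor Q 1 T (oddProj C o)
  | surface (S : 𝒱.Obj) (q : C.A (S.prod S)) (h : Q S q) : IsFactor Q 2 S q

/-- `IsPart Q n P p`: the variety `P` is a product of curves `T` and of surfaces `S`, and `p` is
the external product of the projectors on the motives `h^1(T)` and `t_2(S)` of the factors; the
number `n` is the number of curves plus twice the number of surfaces. So `(P, p)` is the motive
`h^1(T_1) ⊗ ⋯ ⊗ h^1(T_s) ⊗ t_2(S_1) ⊗ ⋯ ⊗ t_2(S_r)`, `n = s + 2r`, the factors in any order. -/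
inductive IsPart (Q : ∀ S : 𝒱.Obj, C.A (S.prod S) → Prop) :
    ℕ → (P : 𝒱.Obj) → C.A (P.prod P) → Prop
  | factor (n : ℕ) (T : 𝒱.Obj) (r : C.A (T.prod T)) (hr : IsFactor Q n T r) : IsPart Q n T r
  | prod (n m : ℕ) (P T : 𝒱.Obj) (p : C.A (P.prod P)) (r : C.A (T.prod T)) (hp : IsPart Q n P p)
      (hr : IsFactor Q m T r) : IsPart Q (n + m) (P.prod T) (tens C p r)

/-- The variety `P` is a product of curves and of surfaces `S` such that `Q S q` for some `q`. -/
inductive IsProductOfCurvesAndSurfaces (Q : ∀ S : 𝒱.Obj, C.A (S.prod S) → Prop) :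
    𝒱.Obj → Prop
  | factor (T : 𝒱.Obj) (hT : T.dim = 1 ∨ ∃ q, Q T q) : IsProductOfCurvesAndSurfaces Q T
  | prod (P T : 𝒱.Obj) (hP : IsProductOfCurvesAndSurfaces Q P) (hT : T.dim = 1 ∨ ∃ q, Q T q) :
      IsProductOfCurvesAndSurfaces Q (P.prod T)

/-- The Chow motive of `X` is a direct summand of the Chow motive of a variety in the class `S`. -/
def SummandOf (C : TheoryData.{u, v, 0} 𝒱 ℚ) (S : 𝒱.Obj → Prop) (X : 𝒱.Obj) : Prop :=
  ∃ P : 𝒱.Obj, S P ∧ ∃ (f : C.A (X.prod P)) (g : C.A (P.prod X)),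
    C.Deg X.dim f ∧ C.Deg P.dim g ∧ C.comp f g = dg C X

/-- The injectivity of the Abel-Jacobi maps on the cycles of codimension `j` of the motives
`(P, p) = h^1(T_1) ⊗ ⋯ ⊗ h^1(T_s) ⊗ t_2(S_1) ⊗ ⋯ ⊗ t_2(S_r)` with `s + 2r = 2j - 1`: a class
`z ∈ CH^j(P)` in the kernel of the Abel-Jacobi map such that `p_* z = z` is zero. -/
def InjectiveOnPrimitive (Q : ∀ S : 𝒱.Obj, C.A (S.prod S) → Prop)
    (N : ∀ X : 𝒱.Obj, ℕ → Submodule ℚ (C.A X)) (j : ℕ) : Prop :=
  ∀ (P : 𝒱.Obj) (p : C.A (P.prod P)), IsPart Q (2 * j - 1) P p →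
    ∀ z ∈ N P j, C.act p z = z → z = 0

/-- The injectivity of the Abel-Jacobi maps on these motives in the codimensions `2 ≤ j ≤ d`. -/
def InjectiveUpTo (Q : ∀ S : 𝒱.Obj, C.A (S.prod S) → Prop)
    (N : ∀ X : 𝒱.Obj, ℕ → Submodule ℚ (C.A X)) (d : ℕ) : Prop :=
  ∀ j : ℕ, 2 ≤ j → j ≤ d → InjectiveOnPrimitive Q N j

end curves

end Pool.Agent.Y148.BB
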