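import Pool.Agent.Y148.BB.Piece

/-!
# The filtrations attached to Chow-Kunneth decompositions into pieces
-/

open CategoryTheory AlgebraicGeometry

universe u v w

namespace Pool.Agent.Y148.BB

open Pool.Agent.H914 Pool.Agent.H914.VarClass Pool.Agent.H914.VarClass.Obj Pool.Agent.W492.BB
  Pool.Agent.W550.Corr Pool.Agent.TH133

set_option linter.unusedSectionVars false
set_option linter.unusedVariables false
set_option linter.unusedTactic false

variable {k : Type u} [Field k] {𝒱 : VarClass k}

section weil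

variable {C : TheoryData.{u, v, 0} 𝒱 ℚ} [hC : IsChowProj C] {K : Type w} [Field K]
  (H : WeilTheoryData.{u, v, w} C K) [hH : IsWeilProj H] {X Y Z W T P S : 𝒱.Obj}
  (N : ∀ X : 𝒱.Obj, ℕ → Submodule ℚ (C.A X)) {Q : ∀ S : 𝒱.Obj, C.A (S.prod S) → Prop}

/-- The vanishing statements in codimension at most `d` for a correspondence of weight `m`. -/
structure Van (d m : ℕ) (X : 𝒱.Obj) (R : C.A (X.prod X)) : Prop where
  lt : ∀ (j : ℤ) (z : C.A X), j ≤ d → 2 * j < m → z ∈ C.gr X j → C.act R z = 0
  eq : ∀ (j : ℤ) (z : C.A X), j ≤ d → 2 * j = m → z ∈ C.gr X j → H.cl z = 0 → C.act R z = 0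
  aj : ∀ (j : ℕ) (z : C.A X), j ≤ d → 2 * j = m + 1 → z ∈ N X j → C.act R z = 0
  gt : ∀ (j : ℤ) (z : C.A X), m < j → z ∈ C.gr X j → C.act R z = 0

variable {H} {N}

include hC hH

theorem IsPiece.van (hF : FibreProperty C) (hN : IsAbelJacobiKernel H N)
    (hQ : AllTranscendental H Q) {d : ℕ} (hI : InjectiveUpTo Q N d) {m : ℕ} {R : C.A (X.prod X)}
    (h : IsPiece C Q m X R) : Van H N d m X R := by
  cases h with
  | zero _ c v u hc hv hu =>
    refine ⟨fun j z _ hj hz => ?_, fun j z _ hj hz hz' => ?_, fun j z _ hj hz => ?_,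
      fun j z hj hz => ?_⟩
    · apply act_ext_zero_of_lt (C.mul_mem hv hz)
      push_cast at hj
      omega
    · push_cast at hj
      have h1 : v * z ∈ C.gr X X.dim := gr_congr (by omega) (C.mul_mem hv hz)
      rw [act_ext' (q := 0), zero_smul]
      apply hasDegree_zero_of_cl H h1
      rw [map_mul, hz', mul_zero]
    · omega
    · apply act_ext_zero_of_lt (C.mul_mem hv hz)
      push_cast at hj
      omega
  | odd _ n c P p hp f g hf hg =>
    have hv := hp.van hF hN hQ hI
    have hact : ∀ z, C.act (C.comp f (C.comp p g)) z = C.act g (C.act p (C.act f z)) := by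
      intro z
      rw [C.act_comp, C.act_comp]
    have hfm : ∀ (j : ℤ) z, z ∈ C.gr X j → C.act f z ∈ C.gr P (j - c) := by
      intro j z hz
      have h1 : f ∈ C.gr (X.prod P) (X.dim + (-(c : ℤ))) := gr_congr (by ring) hf
      exact gr_congr (by ring) (act_mem' C h1 hz)
    refine ⟨fun j z hd hj hz => ?_, fun j z hd hj hz hz' => ?_, fun j z hd hj hz => ?_,
      fun j z hj hz => ?_⟩
    · push_cast at hj
      rw [hact, hv.lt (j - c) _ (by omega) (by omega) (hfm j z hz), TheoryData.act_map_zero]
    · push_cast at hj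
      rw [hact, hv.eq (j - c) _ (by omega) (by omega) (hfm j z hz) (act_hom hz'),
        TheoryData.act_map_zero]
    · rw [hact, hv.aj (j - c) _ (by omega) (by omega), TheoryData.act_map_zero]
      apply hN.stable X P j (j - c) f _ z hz
      have h2 : ((j - c : ℕ) : ℤ) = j - c := by omega
      exact gr_congr (by rw [h2]; ring) hf
    · have h1 := hfm j z hz
      have h2 := hp.dim_eq hQ
      push_cast at hj
      rw [hact, hC.gr_top P (j - c) _ h1 (by omega), TheoryData.act_map_zero,
        TheoryData.act_map_zero]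

/-- The composition of a correspondence with two pieces which raise the weights acts as zero. -/
theorem pieces_act_zero (hF : FibreProperty C) (hN : IsAbelJacobiKernel H N)
    (hQ : AllTranscendental H Q) {d : ℕ} (hI : InjectiveUpTo Q N d) {a b : ℕ}
    {R : C.A (X.prod X)} {R' : C.A (Y.prod Y)} (h : IsPiece C Q a X R) (h' : IsPiece C Q b Y R')
    {i j : ℤ} {Γ : C.A (X.prod Y)} (hΓ : Γ ∈ C.gr (X.prod Y) (X.dim + i - j)) {z : C.A X}
    (hz : z ∈ C.gr X j) (hid : i ≤ d) (hd : i - j + a ≤ d)
    (hcase : 2 * i + a < 2 * j + b ∨ (2 * i + a = 2 * j + b ∧ H.cl Γ = 0)) :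
    C.act R' (C.act Γ (C.act R z)) = 0 := by
  have hv' := h'.van hF hN hQ hI
  have hΓ' : Γ ∈ C.gr (X.prod Y) (X.dim + (i - j)) := gr_congr (by ring) hΓ
  cases h with
  | zero _ c v u hc hv hu =>
    by_cases hjc : j = c
    · have h1 : C.act (C.ext v u) z ∈ C.gr X j := by
        have h2 : C.ext v u ∈ C.gr (X.prod X) X.dim := gr_congr (by ring) (ext_mem' hv hu)
        exact act_mem0 C h2 hz
      have h2 : C.act Γ (C.act (C.ext v u) z) ∈ C.gr Y i :=
        gr_congr (by ring) (act_mem' C hΓ' h1)
      rcases hcase with h3 | ⟨h3, h4⟩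
      · apply hv'.lt i _ hid _ h2
        push_cast at h3
        omega
      · apply hv'.eq i _ hid _ h2
        · rw [cl_act H, h4, TheoryData.act_zero]
        · push_cast at h3
          omega
    · have h1 : C.act (C.ext v u) z = 0 :=
        act_ext_zero_of_lt (C.mul_mem hv hz) (by omega)
      rw [h1, TheoryData.act_map_zero, TheoryData.act_map_zero]
  | odd _ n c P p hp f g hf hg =>
    have hdP := hp.dim_eq hQ
    have hact : C.act (C.comp f (C.comp p g)) z = C.act g (C.act p (C.act f z)) := by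
      rw [C.act_comp, C.act_comp]
    have hf' : f ∈ C.gr (X.prod P) (X.dim + (-(c : ℤ))) := gr_congr (by ring) hf
    have hfz : C.act f z ∈ C.gr P (j - c) := gr_congr (by ring) (act_mem' C hf' hz)
    have hpz : C.act p (C.act f z) ∈ C.gr P (j - c) := act_mem0 C (hp.mem hQ) hfz
    cases h' with
    | zero _ c' v' u' hc' hv0 hu0 =>
      by_cases hic : i = c'
      · have h1 : H.cl (C.act Γ (C.act g (C.act p (C.act f z)))) = 0 := by
          rcases hcase with h3 | ⟨h3, h4⟩
          · apply act_hom
            apply act_hom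
            rw [cl_act H]
            apply hp.kills hQ (m := 2 * (j - c)) _ _ (H.cl_mem hfz)
            push_cast at h3
            omega
          · rw [cl_act H, h4, TheoryData.act_zero]
        have h2 : C.act Γ (C.act g (C.act p (C.act f z))) ∈ C.gr Y i := by
          have h3 : C.act g (C.act p (C.act f z)) ∈ C.gr X j :=
            gr_congr (by ring) (act_mem' C hg hpz)
          exact gr_congr (by ring) (act_mem' C hΓ' h3)
        rw [hact]
        exact (IsPiece.zero (Q := Q) Y c' v' u' hc' hv0 hu0).van hF hN hQ hI |>.eq i _ hid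
          (by push_cast; omega) h2 h1
      · apply act_ext_zero_of_lt (i := Y.dim - c' + i)
        · apply C.mul_mem hv0
          have h3 : C.act (C.comp f (C.comp p g)) z ∈ C.gr X j := by
            rw [hact]
            exact gr_congr (by ring) (act_mem' C hg hpz)
          exact gr_congr (by ring) (act_mem' C hΓ' h3)
        · omega
    | odd _ n' c' P' p' hp' f' g' hf0 hg0 =>
      have hf0' : f' ∈ C.gr (Y.prod P') (Y.dim + (-(c' : ℤ))) := gr_congr (by ring) hf0
      set η := C.comp (C.comp g Γ) f' with hη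
      have hηm : η ∈ C.gr (P.prod P') (n + (i - c') - (j - c)) := by
        have h1 := comp_mem C (comp_mem C hg hΓ') hf0'
        exact gr_congr (by rw [hdP]; ring) h1
      have h0 : C.comp p (C.comp η p') = 0 := by
        apply tens_part_van hF hN hQ hI hp hp' _ η hηm (by push_cast at hd; omega)
        rcases hcase with h3 | ⟨h3, h4⟩
        · left
          push_cast at h3
          omega
        · right
          refine ⟨by push_cast at h3; omega, ?_⟩
          rw [hη, cl_comp, cl_comp, h4, comp_zero, zero_comp]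
      have h1 : C.act (C.comp f' (C.comp p' g')) (C.act Γ (C.act (C.comp f (C.comp p g)) z)) =
          C.act g' (C.act (C.comp p (C.comp η p')) (C.act f z)) := by
        rw [hact, hη]
        simp only [C.act_comp]
      rw [h1, h0, TheoryData.act_zero, TheoryData.act_map_zero]

/-- The vanishing statements are stable under linear combinations. -/
theorem Van.span {d m : ℕ} {R : C.A (X.prod X)} {A : Set (C.A (X.prod X))}
    (hA : ∀ R ∈ A, Van H N d m X R) (hR : R ∈ Submodule.span ℚ A) : Van H N d m X R := by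
  have key : ∀ z : C.A X, (∀ R ∈ A, C.act R z = 0) → C.act R z = 0 := by
    intro z hz
    have hle : Submodule.span ℚ A ≤ LinearMap.ker ((actB C (X := X) (Y := X)).flip z) := by
      rw [Submodule.span_le]
      intro R hR
      exact hz R hR
    exact hle hR
  exact ⟨fun j z hd hj hz => key z fun R hR => (hA R hR).lt j z hd hj hz,
    fun j z hd hj hz hz' => key z fun R hR => (hA R hR).eq j z hd hj hz hz',
    fun j z hd hj hz => key z fun R hR => (hA R hR).aj j z hd hj hz,
    fun j z hj hz => key z fun R hR => (hA R hR).gt j z hj hz⟩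

omit hH in
lemma span_act_zero {A : Set (C.A (X.prod X))} {B : Set (C.A (Y.prod Y))} {R : C.A (X.prod X)}
    {R' : C.A (Y.prod Y)} (hR : R ∈ Submodule.span ℚ A) (hR' : R' ∈ Submodule.span ℚ B)
    (Γ : C.A (X.prod Y)) (z : C.A X) (h : ∀ R ∈ A, ∀ R' ∈ B, C.act R' (C.act Γ (C.act R z)) = 0) :
    C.act R' (C.act Γ (C.act R z)) = 0 := by
  have h1 : ∀ R ∈ A, C.act R' (C.act Γ (C.act R z)) = 0 := by
    intro R hR0
    have hle : Submodule.span ℚ B ≤
        LinearMap.ker ((actB C (X := Y) (Y := Y)).flip (C.act Γ (C.act R z))) := by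
      rw [Submodule.span_le]
      intro R' hR0'
      exact h R hR0 R' hR0'
    exact hle hR'
  have hle : Submodule.span ℚ A ≤ LinearMap.ker (C.actL R' ∘ₗ C.actL Γ ∘ₗ
      (actB C (X := X) (Y := X)).flip z) := by
    rw [Submodule.span_le]
    intro R hR0
    exact h1 R hR0
  exact hle hR

variable (H Q) in
/-- A Chow-Kunneth decomposition whose members are linear combinations of pieces. -/
structure IsPieceCK (X : 𝒱.Obj) (π : ℕ → C.A (X.prod X)) : Prop where
  ck : IsCK H X π
  mem : ∀ m, π m ∈ Submodule.span ℚ {R | IsPiece C Q m X R}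

theorem IsPieceCK.van {π : ℕ → C.A (X.prod X)} (h : IsPieceCK H Q X π) (hF : FibreProperty C)
    (hN : IsAbelJacobiKernel H N) (hQ : AllTranscendental H Q) {d : ℕ}
    (hI : InjectiveUpTo Q N d) (m : ℕ) : Van H N d m X (π m) :=
  Van.span (fun R hR => IsPiece.van hF hN hQ hI hR) (h.mem m)

lemma tens_mem_span (hQ : AllTranscendental H Q) {m m' : ℕ} {R : C.A (X.prod X)}
    {R' : C.A (Z.prod Z)} (h : R ∈ Submodule.span ℚ {R | IsPiece C Q m X R})
    (h' : R' ∈ Submodule.span ℚ {R | IsPiece C Q m' Z R}) :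
    Pool.Agent.TH133.tens C R R' ∈
      Submodule.span ℚ {R | IsPiece C Q (m + m') (X.prod Z) R} := by
  have h1 : Submodule.span ℚ {R | IsPiece C Q m X R} ≤
      Submodule.comap ((tensL (C := C) (X := X) (Y := X) (Z := Z) (W := Z)).flip R')
        (Submodule.span ℚ {R | IsPiece C Q (m + m') (X.prod Z) R}) := by
    rw [Submodule.span_le]
    intro R hR
    have h2 : Submodule.span ℚ {R | IsPiece C Q m' Z R} ≤
        Submodule.comap (tensL (C := C) (X := X) (Y := X) (Z := Z) (W := Z) R)
          (Submodule.span ℚ {R | IsPiece C Q (m + m') (X.prod Z) R}) := by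
      rw [Submodule.span_le]
      intro R' hR'
      exact Submodule.subset_span (IsPiece.tens hQ hR hR')
    exact h2 h'
  exact h1 h

lemma IsPieceCK.prod (hQ : AllTranscendental H Q) {π : ℕ → C.A (X.prod X)}
    {ρ : ℕ → C.A (Z.prod Z)} (h : IsPieceCK H Q X π) (h' : IsPieceCK H Q Z ρ) :
    IsPieceCK H Q (X.prod Z) (prodCK C π ρ) where
  ck := h.ck.prod h'.ck
  mem m := by
    unfold prodCK
    apply Submodule.sum_mem
    intro i hi
    rw [Finset.mem_range] at hi
    have h1 := tens_mem_span hQ (h.mem i) (h'.mem (m - i))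
    have e : i + (m - i) = m := by omega
    rwa [e] at h1

lemma isPieceCK_curve {o : C.A T} (hT : T.dim = 1) (ho : C.Deg 1 o) (hd : HasDegree C o 1) :
    IsPieceCK H Q T (curveCK C o) where
  ck := curveCK_isCK H hT ho hd
  mem m := by
    match m with
    | 0 =>
      apply Submodule.subset_span
      have h1 := IsPiece.zero (C := C) (Q := Q) T 0 o 1 (by omega)
        (gr_congr (by rw [hT]; norm_num) ho) (C.one_mem T)
      exact h1
    | 1 =>
      apply Submodule.subset_span
      have h1 := IsPiece.odd (C := C) (Q := Q) T 1 0 T (oddProj C o)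
        (IsPart.factor 1 T _ (IsFactor.curve T o hT ho hd))
        (dg C T) (dg C T) (gr_congr (by norm_num) (dg_mem C T))
        (gr_congr (by norm_num) (dg_mem C T))
      rw [comp_dg, dg_comp] at h1
      exact h1
    | 2 =>
      apply Submodule.subset_span
      have h1 := IsPiece.zero (C := C) (Q := Q) T 1 1 o (by omega)
        (gr_congr (by rw [hT]; norm_num) (C.one_mem T)) (by exact_mod_cast ho)
      exact h1
    | (m + 3) => exact Submodule.zero_mem _

lemma exists_pieceCK_surface (hQ : AllTranscendental H Q) {q : C.A (S.prod S)} (hq : Q S q) :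
    ∃ π, IsPieceCK H Q S π := by
  have hS := hQ S q hq
  have hdim := hS.dim_eq
  obtain ⟨x, π, hx, hxd, hpen, hπ, hπ0, hπ4, h2, hπ2, hπ1, hπ3⟩ := hS.exists_ck
  refine ⟨π, hπ, fun m => ?_⟩
  match m with
  | 0 =>
    apply Submodule.subset_span
    have h1 := IsPiece.zero (C := C) (Q := Q) S 0 x 1 (by omega)
      (gr_congr (by rw [hdim]; norm_num) hx) (C.one_mem S)
    change IsPiece C Q 0 S (π 0)
    rw [hπ0]
    exact h1
  | 1 =>
    refine Submodule.span_mono ?_ hπ1
    rintro c ⟨T, o, f, g, hT, ho, hd, hf, hg, rfl⟩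
    exact IsPiece.odd (C := C) (Q := Q) S 1 0 T (oddProj C o)
      (IsPart.factor 1 T _ (IsFactor.curve T o hT ho hd)) f g
      (gr_congr (by rw [hdim]; norm_num) hf) (gr_congr (by rw [hT]; norm_num) hg)
  | 2 =>
    have h1 : π 2 = (π 2 - q) + q := (sub_add_cancel _ _).symm
    rw [h1]
    apply Submodule.add_mem
    · refine Submodule.span_mono ?_ hπ2
      rintro c ⟨D, D', hD, hD', rfl⟩
      exact IsPiece.zero (C := C) (Q := Q) S 1 D D' (by omega)
        (gr_congr (by rw [hdim]; norm_num) hD) (by exact_mod_cast hD')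
    · apply Submodule.subset_span
      have h3 := IsPiece.odd (C := C) (Q := Q) S 2 0 S q
        (IsPart.factor 2 S _ (IsFactor.surface S q hq))
        (dg C S) (dg C S) (gr_congr (by norm_num) (dg_mem C S))
        (gr_congr (by norm_num) (dg_mem C S))
      rw [comp_dg, dg_comp] at h3
      exact h3
  | 3 =>
    refine Submodule.span_mono ?_ hπ3
    rintro c ⟨T, o, f, g, hT, ho, hd, hf, hg, rfl⟩
    exact IsPiece.odd (C := C) (Q := Q) S 1 1 T (oddProj C o)
      (IsPart.factor 1 T _ (IsFactor.curve T o hT ho hd)) f g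
      (gr_congr (by rw [hdim]; norm_num) hf) (gr_congr (by rw [hT]; norm_num) hg)
  | 4 =>
    apply Submodule.subset_span
    have h1 := IsPiece.zero (C := C) (Q := Q) S 2 1 x (by omega)
      (gr_congr (by rw [hdim]; norm_num) (C.one_mem S)) (by exact_mod_cast hx)
    change IsPiece C Q 4 S (π 4)
    rw [hπ4]
    exact h1
  | (m + 5) =>
    rw [hπ.out (m + 5) (by omega)]
    exact Submodule.zero_mem _

lemma exists_pieceCK_factor (hQ : AllTranscendental H Q) (hT : T.dim = 1 ∨ ∃ q, Q T q) :
    ∃ π, IsPieceCK H Q T π := by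
  rcases hT with hT | ⟨q, hq⟩
  · obtain ⟨o, ho, h1, h2⟩ := W492.BB.exists_deg_one C T
    have hd : HasDegree C o 1 := by
      intro Y
      rw [one_smul]
      exact ⟨h2 Y, h1 Y⟩
    rw [hT] at ho
    exact ⟨_, isPieceCK_curve hT (by exact_mod_cast ho) hd⟩
  · exact exists_pieceCK_surface hQ hq

lemma exists_pieceCK (hQ : AllTranscendental H Q) (h : IsProductOfCurvesAndSurfaces Q X) :
    ∃ π, IsPieceCK H Q X π := by
  induction h with
  | factor T hT => exact exists_pieceCK_factor hQ hT
  | prod P T hP hT ih =>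
    obtain ⟨π, hπ⟩ := ih
    obtain ⟨ρ, hρ⟩ := exists_pieceCK_factor hQ hT
    exact ⟨_, hπ.prod hQ hρ⟩

omit hC hH in
variable (C) in
/-- The filtration attached to the Chow-Kunneth decompositions in the class `G`. -/
def ckF (G : ∀ X : 𝒱.Obj, (ℕ → C.A (X.prod X)) → Prop) (X : 𝒱.Obj) (j ν : ℕ) :
    Submodule ℚ (C.A X) where
  carrier := {z | z ∈ C.gr X j ∧ ∀ π, G X π → ∀ m : ℕ, 2 * j < m + ν → C.act (π m) z = 0}
  add_mem' := fun {a b} ha hb => ⟨Submodule.add_mem _ ha.1 hb.1, fun π hπ m hm => by
    rw [act_map_add, ha.2 π hπ m hm, hb.2 π hπ m hm, add_zero]⟩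
  zero_mem' := ⟨Submodule.zero_mem _, fun π hπ m hm => TheoryData.act_map_zero _ _⟩
  smul_mem' := fun q a ha => ⟨Submodule.smul_mem _ q ha.1, fun π hπ m hm => by
    rw [act_map_smul, ha.2 π hπ m hm, smul_zero]⟩

lemma sum_act {π : ℕ → C.A (X.prod X)} (h : IsCK H X π) (z : C.A X) :
    z = ∑ m ∈ Finset.range (2 * X.dim + 1), C.act (π m) z := by
  rw [← act_sum, h.sum, act_dg]

end weil

end Pool.Agent.Y148.BB
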