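import Pool.Agent.Y148.BB.Fil

/-!
# Bloch-Beilinson filtrations on varieties whose motives are summands of motives of products of
curves and surfaces
-/

open CategoryTheory AlgebraicGeometry

universe u v w

namespace Pool.Agent.Y148.BB

open Pool.Agent.H914 Pool.Agent.H914.VarClass Pool.Agent.H914.VarClass.Obj Pool.Agent.W492.BB
  Pool.Agent.W550.Corr Pool.Agent.TH133

set_option linter.unusedSectionVars false
set_option linter.unusedVariables false
set_option linter.unusedTactic false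

variable {k : Type u} [Field k] {𝒱 : VarClass k}

section weil

variable {C : TheoryData.{u, v, 0} 𝒱 ℚ} {K : Type w} [Field K]
  (H : WeilTheoryData.{u, v, w} C K)

/-- A Bloch-Beilinson filtration on the Chow groups of codimensions in `J` of the varieties in the
class `S`. -/
structure IsBBIn (J : ℕ → Prop) (N : ∀ X : 𝒱.Obj, ℕ → Submodule ℚ (C.A X)) (S : 𝒱.Obj → Prop)
    (F : ∀ X : 𝒱.Obj, ℕ → ℕ → Submodule ℚ (C.A X)) : Prop where
  anti : ∀ X, S X → ∀ j, J j → ∀ ν : ℕ, F X j (ν + 1) ≤ F X j ν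
  zero : ∀ X, S X → ∀ j, J j → ∀ z : C.A X, z ∈ F X j 0 ↔ C.Deg j z
  one : ∀ X, S X → ∀ j, J j → ∀ z : C.A X, z ∈ F X j 1 ↔ C.Deg j z ∧ H.cl z = 0
  two : ∀ X, S X → ∀ j, J j → F X j 2 = N X j
  top : ∀ X, S X → ∀ j, J j → F X j (j + 1) = ⊥
  stable : ∀ X Y, S X → S Y → ∀ j i, J j → J i → ∀ (ν : ℕ) (Γ : C.A (X.prod Y)),
    C.Deg (X.dim + i - j) Γ → ∀ z ∈ F X j ν, C.act Γ z ∈ F Y i ν
  shift : ∀ X Y, S X → S Y → ∀ j i, J j → J i → ∀ (ν : ℕ) (Γ : C.A (X.prod Y)),
    C.Deg (X.dim + i - j) Γ → Kills H Γ (2 * j - ν) → ∀ z ∈ F X j ν, C.act Γ z ∈ F Y i (ν + 1)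

variable [hC : IsChowProj C] {H} [hH : IsWeilProj H] {X Y Z W T P S : 𝒱.Obj}
  {N : ∀ X : 𝒱.Obj, ℕ → Submodule ℚ (C.A X)} {Q : ∀ S : 𝒱.Obj, C.A (S.prod S) → Prop}

/-- The extension of a family of filtrations on the class `S` to all varieties. -/
def extF (C : TheoryData.{u, v, 0} 𝒱 ℚ) (J : ℕ → Prop) (S : 𝒱.Obj → Prop)
    (F : ∀ X : 𝒱.Obj, ℕ → ℕ → Submodule ℚ (C.A X)) (X : 𝒱.Obj) (j ν : ℕ) :
    Submodule ℚ (C.A X) where
  carrier := {z | z ∈ C.gr X j ∧ ∀ (P : 𝒱.Obj) (i : ℕ) (f : C.A (X.prod P)), S P → J i →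
    C.Deg (X.dim + i - j) f → C.act f z ∈ F P i ν}
  add_mem' := fun {a b} ha hb => ⟨Submodule.add_mem _ ha.1 hb.1, fun P i f hP hi hf => by
    rw [act_map_add]; exact Submodule.add_mem _ (ha.2 P i f hP hi hf) (hb.2 P i f hP hi hf)⟩
  zero_mem' := ⟨Submodule.zero_mem _, fun P i f hP hi hf => by
    rw [TheoryData.act_map_zero]; exact Submodule.zero_mem _⟩
  smul_mem' := fun q a ha => ⟨Submodule.smul_mem _ q ha.1, fun P i f hP hi hf => by
    rw [act_map_smul]; exact Submodule.smul_mem _ q (ha.2 P i f hP hi hf)⟩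

include hC hH

/-- **Bloch-Beilinson filtrations extend to direct summands.** -/
theorem IsBBIn.ext {J : ℕ → Prop} {S : 𝒱.Obj → Prop}
    {F : ∀ X : 𝒱.Obj, ℕ → ℕ → Submodule ℚ (C.A X)} (hF : IsBBIn H J N S F)
    (hN : IsAbelJacobiKernel H N) : IsBBIn H J N (SummandOf C S) (extF C J S F) where
  anti := by
    rintro X - j hj ν z ⟨hz, h⟩
    exact ⟨hz, fun P i f hP hi hf => hF.anti P hP i hi ν (h P i f hP hi hf)⟩
  zero := by
    rintro X - j hj z
    refine ⟨fun h => h.1, fun h => ⟨h, fun P i f hP hi hf => ?_⟩⟩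
    rw [hF.zero P hP i hi]
    have h4 : f ∈ C.gr (X.prod P) (X.dim + ((i : ℤ) - j)) := gr_congr (by ring) hf
    exact gr_congr (by ring) (act_mem' C h4 h)
  one := by
    rintro X ⟨P, hP, f, g, hf, hg, hfg⟩ j hj z
    constructor
    · rintro ⟨hz, h⟩
      refine ⟨hz, ?_⟩
      have h1 := ((hF.one P hP j hj _).1 (h P j f hP hj (gr_congr (by ring) hf))).2
      have h2 : z = C.act g (C.act f z) := by rw [← C.act_comp, hfg, act_dg]
      rw [h2]
      exact act_hom h1
    · rintro ⟨hz, h⟩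
      refine ⟨hz, fun P i f hP hi hf => ?_⟩
      rw [hF.one P hP i hi]
      have h4 : f ∈ C.gr (X.prod P) (X.dim + ((i : ℤ) - j)) := gr_congr (by ring) hf
      exact ⟨gr_congr (by ring) (act_mem' C h4 hz), act_hom h⟩
  two := by
    rintro X ⟨P, hP, f, g, hf, hg, hfg⟩ j hj
    apply le_antisymm
    · rintro z ⟨hz, h⟩
      have h1 := h P j f hP hj (gr_congr (by ring) hf)
      rw [hF.two P hP j hj] at h1
      have h2 : z = C.act g (C.act f z) := by rw [← C.act_comp, hfg, act_dg]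
      rw [h2]
      exact hN.stable P X j j g (gr_congr (by ring) hg) _ h1
    · intro z hz
      refine ⟨(hN.deg X j z hz).1, fun P i f hP hi hf => ?_⟩
      rw [hF.two P hP i hi]
      exact hN.stable X P j i f hf z hz
  top := by
    rintro X ⟨P, hP, f, g, hf, hg, hfg⟩ j hj
    rw [eq_bot_iff]
    rintro z ⟨hz, h⟩
    have h1 := h P j f hP hj (gr_congr (by ring) hf)
    rw [hF.top P hP j hj, Submodule.mem_bot] at h1
    rw [Submodule.mem_bot]
    have h2 : z = C.act g (C.act f z) := by rw [← C.act_comp, hfg, act_dg]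
    rw [h2, h1, TheoryData.act_map_zero]
  stable := by
    rintro X Y - - j i hj hi ν Γ hΓ z ⟨hz, h⟩
    have hΓ' : Γ ∈ C.gr (X.prod Y) (X.dim + ((i : ℤ) - j)) := gr_congr (by ring) hΓ
    refine ⟨gr_congr (by ring) (act_mem' C hΓ' hz), fun P l f hP hl hf => ?_⟩
    rw [← C.act_comp]
    apply h P l _ hP hl
    have hf' : f ∈ C.gr (Y.prod P) (Y.dim + ((l : ℤ) - i)) := gr_congr (by ring) hf
    exact gr_congr (by ring) (comp_mem C hΓ' hf')
  shift := by
    rintro X Y ⟨P₀, hP₀, f₀, g₀, hf₀, hg₀, hfg⟩ - j i hj hi ν Γ hΓ hk z ⟨hz, h⟩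
    have hΓ' : Γ ∈ C.gr (X.prod Y) (X.dim + ((i : ℤ) - j)) := gr_congr (by ring) hΓ
    refine ⟨gr_congr (by ring) (act_mem' C hΓ' hz), fun P l f hP hl hf => ?_⟩
    have hf' : f ∈ C.gr (Y.prod P) (Y.dim + ((l : ℤ) - i)) := gr_congr (by ring) hf
    have h1 := h P₀ j f₀ hP₀ hj (gr_congr (by ring) hf₀)
    have h2 : z = C.act g₀ (C.act f₀ z) := by rw [← C.act_comp, hfg, act_dg]
    rw [h2, ← C.act_comp, ← C.act_comp]
    apply hF.shift P₀ P hP₀ hP j l hj hl ν _ _ _ _ h1
    · have h3 := comp_mem C (e := 0) (by rw [add_zero]; exact hg₀) (comp_mem C hΓ' hf')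
      exact gr_congr (by ring) h3
    · intro a ha
      rw [actH_comp H, actH_comp H]
      have h3 : H.act (H.cl g₀) a ∈ H.gr X (2 * j - ν) := by
        have h4 := actH_mem H (e := 0) (by rw [add_zero]; exact hg₀) ha
        rwa [mul_zero, add_zero] at h4
      rw [hk _ h3, TheoryData.act_map_zero]

lemma SummandOf.self {S : 𝒱.Obj → Prop} (h : S X) : SummandOf C S X :=
  ⟨X, h, dg C X, dg C X, dg_mem C X, dg_mem C X, dg_comp C _⟩

omit hC hH in
lemma IsBBIn.mono {J : ℕ → Prop} {S S' : 𝒱.Obj → Prop}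
    {F : ∀ X : 𝒱.Obj, ℕ → ℕ → Submodule ℚ (C.A X)} (hF : IsBBIn H J N S F)
    (h : ∀ X, S' X → S X) : IsBBIn H J N S' F where
  anti X hX := hF.anti X (h X hX)
  zero X hX := hF.zero X (h X hX)
  one X hX := hF.one X (h X hX)
  two X hX := hF.two X (h X hX)
  top X hX := hF.top X (h X hX)
  stable X Y hX hY := hF.stable X Y (h X hX) (h Y hY)
  shift X Y hX hY := hF.shift X Y (h X hX) (h Y hY)

omit hC hH in
lemma IsPart.isProduct {n : ℕ} {p : C.A (P.prod P)} (h : IsPart Q n P p) :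
    IsProductOfCurvesAndSurfaces Q P := by
  have hf : ∀ {m : ℕ} {T : 𝒱.Obj} {r : C.A (T.prod T)}, IsFactor Q m T r →
      T.dim = 1 ∨ ∃ q, Q T q := by
    intro m T r hr
    cases hr with
    | curve _ o hT ho hd => exact Or.inl hT
    | surface _ _ hq => exact Or.inr ⟨_, hq⟩
  induction h with
  | factor n T r hr => exact IsProductOfCurvesAndSurfaces.factor T (hf hr)
  | prod n m P T p r hp hr ih => exact IsProductOfCurvesAndSurfaces.prod P T ih (hf hr)

/-- A Bloch-Beilinson filtration forces the injectivity of the Abel-Jacobi maps on primitive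
cycles. -/
theorem IsBBIn.injective {J : ℕ → Prop} {S : 𝒱.Obj → Prop}
    {F : ∀ X : 𝒱.Obj, ℕ → ℕ → Submodule ℚ (C.A X)} (hF : IsBBIn H J N S F)
    (hQ : AllTranscendental H Q) (hS : ∀ X, IsProductOfCurvesAndSurfaces Q X → S X) {d : ℕ}
    (hJ : ∀ j ≤ d, J j) : InjectiveUpTo Q N d := by
  intro j hj hjd P p hp z hz hpz
  have hP : S P := hS P hp.isProduct
  have key : ∀ ν : ℕ, z ∈ F P j (ν + 2) := by
    intro ν
    induction ν with
    | zero =>
      rw [hF.two P hP j (hJ j hjd)]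
      exact hz
    | succ ν ih =>
      have h1 := hF.shift P P hP hP j j (hJ j hjd) (hJ j hjd) (ν + 2) p
        (gr_congr (by ring) (hp.mem hQ)) (hp.kills hQ (by push_cast; omega)) z ih
      rw [hpz] at h1
      exact h1
  have h1 := key (j - 1)
  have e : j - 1 + 2 = j + 1 := by omega
  rw [e, hF.top P hP j (hJ j hjd), Submodule.mem_bot] at h1
  exact h1

lemma ckF_one {G : ∀ X : 𝒱.Obj, (ℕ → C.A (X.prod X)) → Prop} {d : ℕ}
    (hG : ∀ X π, G X π → IsCK H X π ∧ ∀ m, Van H N d m X (π m))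
    (hX : ∃ π, G X π) {j : ℕ} (hj : j ≤ d) (z : C.A X) :
    z ∈ ckF C G X j 1 ↔ C.Deg j z ∧ H.cl z = 0 := by
  obtain ⟨π, hπ⟩ := hX
  constructor
  · rintro ⟨h, h'⟩
    refine ⟨h, ?_⟩
    have h1 := h' π hπ (2 * j) (by omega)
    rw [← (hG X π hπ).1.act_self (2 * j) (H.cl z) (by exact_mod_cast H.cl_mem h), ← cl_act H,
      h1, map_zero]
  · rintro ⟨h, h'⟩
    refine ⟨h, fun π hπ m hm => ?_⟩
    by_cases h1 : 2 * j < m
    · exact ((hG X π hπ).2 m).lt j z (by omega) (by omega) h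
    · exact ((hG X π hπ).2 m).eq j z (by omega) (by omega) h h'

lemma ckF_two (hN : IsAbelJacobiKernel H N) {G : ∀ X : 𝒱.Obj, (ℕ → C.A (X.prod X)) → Prop}
    {d : ℕ} (hG : ∀ X π, G X π → IsCK H X π ∧ ∀ m, Van H N d m X (π m))
    (hX : ∃ π, G X π) {j : ℕ} (hj : j ≤ d) : ckF C G X j 2 = N X j := by
  obtain ⟨π, hπ⟩ := hX
  apply le_antisymm
  · rintro z ⟨hz, h⟩
    have hcl : H.cl z = 0 := by
      have h1 := h π hπ (2 * j) (by omega)
      rw [← (hG X π hπ).1.act_self (2 * j) (H.cl z) (by exact_mod_cast H.cl_mem hz),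
        ← cl_act H, h1, map_zero]
    rw [sum_act (hG X π hπ).1 z]
    apply Submodule.sum_mem
    intro m hm
    by_cases h1 : 2 * j < m + 2
    · rw [h π hπ m h1]
      exact Submodule.zero_mem _
    · apply hN.kills X X j j (π m) _ _ z hz hcl
      · rw [add_sub_cancel_right]
        exact (hG X π hπ).1.deg m
      · intro a ha
        exact (hG X π hπ).1.act_ne m _ a (by omega) ha
  · intro z hz
    obtain ⟨h, h'⟩ := hN.deg X j z hz
    refine ⟨h, fun π hπ m hm => ?_⟩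
    by_cases h1 : 2 * j < m
    · exact ((hG X π hπ).2 m).lt j z (by omega) (by omega) h
    · by_cases h2 : 2 * j = m
      · exact ((hG X π hπ).2 m).eq j z (by omega) (by omega) h h'
      · exact ((hG X π hπ).2 m).aj j z hj (by omega) hz

/-- **The Chow-Kunneth filtrations on products of curves and surfaces are Bloch-Beilinson
filtrations if the Abel-Jacobi maps are injective on primitive cycles.** -/
theorem isBBIn_ckF (hF : FibreProperty C) (hN : IsAbelJacobiKernel H N)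
    (hQ : AllTranscendental H Q) {J : ℕ → Prop}
    (hJ : ∀ j i, J j → J i → ∃ d, j ≤ d ∧ i ≤ d ∧ i + j ≤ d + 2 ∧ InjectiveUpTo Q N d) :
    IsBBIn H J N (fun X => ∃ π, IsPieceCK H Q X π) (ckF C (fun X π => IsPieceCK H Q X π)) := by
  have hG : ∀ d, InjectiveUpTo Q N d → ∀ (X : 𝒱.Obj) (π : ℕ → C.A (X.prod X)),
      IsPieceCK H Q X π → IsCK H X π ∧ ∀ m, Van H N d m X (π m) :=
    fun d hd X π h => ⟨h.ck, fun m => h.van hF hN hQ hd m⟩
  have hmem : ∀ (X Y : 𝒱.Obj) (j i : ℕ) (Γ : C.A (X.prod Y)), C.Deg (X.dim + i - j) Γ →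
      ∀ z ∈ C.gr X j, C.act Γ z ∈ C.gr Y i := by
    intro X Y j i Γ hΓ z hz
    have h4 : Γ ∈ C.gr (X.prod Y) (X.dim + ((i : ℤ) - j)) := gr_congr (by ring) hΓ
    exact gr_congr (by ring) (act_mem' C h4 hz)
  have hzero : ∀ (X : 𝒱.Obj) (j : ℕ), J j → ∀ z : C.A X,
      z ∈ ckF C (fun X π => IsPieceCK H Q X π) X j 0 ↔ C.Deg j z := by
    intro X j hj z
    obtain ⟨d, hd, -, -, hI⟩ := hJ j j hj hj
    refine ⟨fun h => h.1, fun h => ⟨h, fun π hπ m hm => ?_⟩⟩
    exact ((hG d hI X π hπ).2 m).lt j z (by omega) (by omega) h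
  have hone : ∀ (X : 𝒱.Obj), (∃ π, IsPieceCK H Q X π) → ∀ (j : ℕ), J j → ∀ z : C.A X,
      z ∈ ckF C (fun X π => IsPieceCK H Q X π) X j 1 ↔ C.Deg j z ∧ H.cl z = 0 := by
    intro X hX j hj z
    obtain ⟨d, hd, -, -, hI⟩ := hJ j j hj hj
    exact ckF_one (hG d hI) hX hd z
  have htwo : ∀ (X : 𝒱.Obj), (∃ π, IsPieceCK H Q X π) → ∀ (j : ℕ), J j →
      ckF C (fun X π => IsPieceCK H Q X π) X j 2 = N X j := by
    intro X hX j hj
    obtain ⟨d, hd, -, -, hI⟩ := hJ j j hj hj
    exact ckF_two hN (hG d hI) hX hd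
  refine ⟨?_, fun X _ j hj z => hzero X j hj z, hone, htwo, ?_, ?_, ?_⟩
  · rintro X - j - ν z ⟨hz, h⟩
    exact ⟨hz, fun π hπ m hm => h π hπ m (by omega)⟩
  · rintro X ⟨π, hπ⟩ j hj
    obtain ⟨d, hd, -, -, hI⟩ := hJ j j hj hj
    rw [eq_bot_iff]
    rintro z ⟨hz, h⟩
    rw [Submodule.mem_bot, sum_act hπ.ck z]
    apply Finset.sum_eq_zero
    intro m hm
    by_cases h1 : 2 * j < m + (j + 1)
    · exact h π hπ m h1
    · exact ((hG d hI X π hπ).2 m).gt j z (by omega) hz
  · intro X Y hX hY j i hj hi ν Γ hΓ z hz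
    match ν with
    | 0 =>
      rw [hzero X j hj] at hz
      rw [hzero Y i hi]
      exact hmem X Y j i Γ hΓ z hz
    | 1 =>
      rw [hone X hX j hj] at hz
      rw [hone Y hY i hi]
      exact ⟨hmem X Y j i Γ hΓ z hz.1, act_hom hz.2⟩
    | 2 =>
      rw [htwo X hX j hj] at hz
      rw [htwo Y hY i hi]
      exact hN.stable X Y j i Γ hΓ z hz
    | (ν + 3) =>
      obtain ⟨d, hjd, hid, hijd, hI⟩ := hJ j i hj hi
      obtain ⟨π, hπ⟩ := hX
      obtain ⟨hz, h⟩ := hz
      refine ⟨hmem X Y j i Γ hΓ z hz, fun ρ hρ b hb => ?_⟩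
      rw [sum_act hπ.ck z, act_map_sum, act_map_sum]
      apply Finset.sum_eq_zero
      intro a ha
      by_cases h1 : 2 * j < a + (ν + 3)
      · rw [h π hπ a h1, TheoryData.act_map_zero, TheoryData.act_map_zero]
      · apply span_act_zero (hπ.mem a) (hρ.mem b)
        intro R hR R' hR'
        exact pieces_act_zero hF hN hQ hI hR hR' hΓ hz (by omega) (by omega)
          (Or.inl (by omega))
  · intro X Y hX hY j i hj hi ν Γ hΓ hk z hz
    match ν with
    | 0 =>
      rw [hzero X j hj] at hz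
      rw [hone Y hY i hi]
      refine ⟨hmem X Y j i Γ hΓ z hz, ?_⟩
      rw [cl_act H]
      apply hk
      have h1 := H.cl_mem hz
      have e : (2 * (j : ℤ) - ((0 : ℕ) : ℤ)) = 2 * j := by push_cast; ring
      rw [e]
      exact h1
    | 1 =>
      rw [hone X hX j hj] at hz
      rw [htwo Y hY i hi]
      exact hN.kills X Y j i Γ hΓ (by exact_mod_cast hk) z hz.1 hz.2
    | (ν + 2) =>
      obtain ⟨d, hjd, hid, hijd, hI⟩ := hJ j i hj hi
      obtain ⟨π, hπ⟩ := hX
      obtain ⟨hz, h⟩ := hz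
      refine ⟨hmem X Y j i Γ hΓ z hz, fun ρ hρ b hb => ?_⟩
      rw [sum_act hπ.ck z, act_map_sum, act_map_sum]
      apply Finset.sum_eq_zero
      intro a ha
      by_cases h1 : 2 * j < a + (ν + 2)
      · rw [h π hπ a h1, TheoryData.act_map_zero, TheoryData.act_map_zero]
      by_cases h2 : 2 * i + a < 2 * j + b
      · apply span_act_zero (hπ.mem a) (hρ.mem b)
        intro R hR R' hR'
        exact pieces_act_zero hF hN hQ hI hR hR' hΓ hz (by omega) (by omega)
          (Or.inl (by omega))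
      · -- the components of the same weight
        set γ := C.comp (C.comp (π a) Γ) (ρ b) with hγ
        have hγm : γ ∈ C.gr (X.prod Y) (X.dim + i - j) := by
          have h4 : Γ ∈ C.gr (X.prod Y) (X.dim + ((i : ℤ) - j)) := gr_congr (by ring) hΓ
          have h5 := comp_mem C (e := 0) (by rw [add_zero]; exact hπ.ck.deg a) h4
          have h6 := comp_mem C (e' := 0) h5 (by rw [add_zero]; exact hρ.ck.deg b)
          exact gr_congr (by ring) h6
        have hγc : H.cl γ = 0 := by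
          apply hom_zero_of_act H
          have h4 : H.actL (H.cl γ) = 0 := by
            apply ext_gr H
            intro m x hx
            rw [TheoryData.actL_apply, hγ, actH_comp H, actH_comp H, LinearMap.zero_apply,
              hπ.ck.actH_eq a m hx]
            split_ifs with hm
            · rw [hk x, TheoryData.act_map_zero]
              have : (2 * (j : ℤ) - ((ν + 2 : ℕ) : ℤ)) = m := by omega
              rw [this]
              exact hx
            · rw [TheoryData.act_map_zero, TheoryData.act_map_zero]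
          intro x
          exact LinearMap.congr_fun h4 x
        have hγ1 : C.act (ρ b) (C.act Γ (C.act (π a) z)) =
            C.act (ρ b) (C.act γ (C.act (π a) z)) := by
          have e1 : C.act (π a) (C.act (π a) z) = C.act (π a) z := by
            rw [← C.act_comp, hπ.ck.idem]
          have e2 : ∀ y, C.act (ρ b) (C.act (ρ b) y) = C.act (ρ b) y := by
            intro y
            rw [← C.act_comp, hρ.ck.idem]
          rw [hγ, C.act_comp, C.act_comp, e1, e2]
        rw [hγ1]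
        apply span_act_zero (hπ.mem a) (hρ.mem b)
        intro R hR R' hR'
        exact pieces_act_zero hF hN hQ hI hR hR' hγm hz (by omega) (by omega)
          (Or.inr ⟨by omega, hγc⟩)

/-- The general form of the equivalence. -/
theorem exists_isBBIn (hF : FibreProperty C) (hN : IsAbelJacobiKernel H N)
    (hQ : AllTranscendental H Q) {J : ℕ → Prop}
    (hJ : ∀ j i, J j → J i → ∃ d, j ≤ d ∧ i ≤ d ∧ i + j ≤ d + 2 ∧ InjectiveUpTo Q N d) :
    ∃ F, IsBBIn H J N (SummandOf C (IsProductOfCurvesAndSurfaces Q)) F :=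
  ⟨_, ((isBBIn_ckF hF hN hQ hJ).mono (S' := IsProductOfCurvesAndSurfaces Q)
    fun X hX => exists_pieceCK hQ hX).ext hN⟩

end weil

end Pool.Agent.Y148.BB
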