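import Pool.Agent.Y148.BB.Van

/-!
# The pieces of the motives of products of curves and surfaces
-/

open CategoryTheory AlgebraicGeometry

universe u v w

namespace Pool.Agent.Y148.BB

open Pool.Agent.H914 Pool.Agent.H914.VarClass Pool.Agent.H914.VarClass.Obj Pool.Agent.W492.BB
  Pool.Agent.W550.Corr Pool.Agent.TH133

set_option linter.unusedSectionVars false
set_option linter.unusedVariables false

variable {k : Type u} [Field k] {𝒱 : VarClass k}

section chow

variable {C : TheoryData.{u, v, 0} 𝒱 ℚ} [hC : IsChowProj C] {X Y Z W T P V M N X' Y' : 𝒱.Obj}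
  {Q : ∀ S : 𝒱.Obj, C.A (S.prod S) → Prop}

include hC

/-- The product of two parts is a part, up to an isomorphism. -/
lemma IsPart.tens_part {n n' : ℕ} {p : C.A (P.prod P)} {P' : 𝒱.Obj} {p' : C.A (P'.prod P')}
    (h : IsPart Q n P p) (h' : IsPart Q n' P' p') :
    ∃ (P₀ : 𝒱.Obj) (p₀ : C.A (P₀.prod P₀)) (a : P.prod P' ⟶ P₀), IsPart Q (n + n') P₀ p₀ ∧
      tens C p p' = C.pull (prodMap a a) p₀ := by
  induction h' with
  | factor n' T r hr =>
    refine ⟨P.prod T, tens C p r, 𝟙 _, IsPart.prod n n' P T p r h hr, ?_⟩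
    have e1 : prodMap (𝟙 (P.prod T)) (𝟙 (P.prod T)) = 𝟙 _ := by
      apply prod_ext <;> simp
    rw [e1, C.pull_id]
  | prod n' m P' T p' r hp' hr ih =>
    obtain ⟨P₀, p₀, a, h₀, ha⟩ := ih
    refine ⟨P₀.prod T, tens C p₀ r, aJ P P' T ≫ prodMap a (𝟙 T), ?_, ?_⟩
    · rw [← add_assoc]
      exact IsPart.prod (n + n') m P₀ T p₀ r h₀ hr
    have e1 : prodMap (aJ P P' T ≫ prodMap a (𝟙 T)) (aJ P P' T ≫ prodMap a (𝟙 T)) ≫
        prodMap (fst P₀ T) (fst P₀ T) =
        prodMap (aJ P P' T ≫ fst (P.prod P') T) (aJ P P' T ≫ fst (P.prod P') T) ≫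
          prodMap a a := by
      rw [prodMap_comp, prodMap_comp]
      simp only [Category.assoc, prodMap_fst]
    have e2 : prodMap (aJ P P' T ≫ prodMap a (𝟙 T)) (aJ P P' T ≫ prodMap a (𝟙 T)) ≫
        prodMap (snd P₀ T) (snd P₀ T) = prodMap (snd P (P'.prod T)) (snd P (P'.prod T)) ≫
          prodMap (snd P' T) (snd P' T) := by
      rw [prodMap_comp, prodMap_comp]
      have : (aJ P P' T ≫ prodMap a (𝟙 T)) ≫ snd P₀ T = snd P (P'.prod T) ≫ snd P' T := by
        simp [aJ]
      rw [this]
    have e3 : prodMap (aJ P P' T ≫ fst (P.prod P') T) (aJ P P' T ≫ fst (P.prod P') T) ≫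
        prodMap (fst P P') (fst P P') = prodMap (fst P (P'.prod T)) (fst P (P'.prod T)) := by
      rw [prodMap_comp]
      have : (aJ P P' T ≫ fst (P.prod P') T) ≫ fst P P' = fst P (P'.prod T) := by
        simp [aJ]
      rw [this]
    have e4 : prodMap (aJ P P' T ≫ fst (P.prod P') T) (aJ P P' T ≫ fst (P.prod P') T) ≫
        prodMap (snd P P') (snd P P') = prodMap (snd P (P'.prod T)) (snd P (P'.prod T)) ≫
          prodMap (fst P' T) (fst P' T) := by
      rw [prodMap_comp, prodMap_comp]
      have : (aJ P P' T ≫ fst (P.prod P') T) ≫ snd P P' = snd P (P'.prod T) ≫ fst P' T := by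
        simp [aJ]
      rw [this]
    have h1 : tens C p (tens C p' r) =
        C.pull (prodMap (fst P (P'.prod T)) (fst P (P'.prod T))) p *
          (C.pull (prodMap (snd P (P'.prod T)) (snd P (P'.prod T)) ≫
            prodMap (fst P' T) (fst P' T)) p' *
          C.pull (prodMap (snd P (P'.prod T)) (snd P (P'.prod T)) ≫
            prodMap (snd P' T) (snd P' T)) r) := by
      rw [C.pull_comp, C.pull_comp, ← map_mul]
      rfl
    have h2 : C.pull (prodMap (aJ P P' T ≫ prodMap a (𝟙 T)) (aJ P P' T ≫ prodMap a (𝟙 T)))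
        (tens C p₀ r) =
        C.pull (prodMap (aJ P P' T ≫ fst (P.prod P') T) (aJ P P' T ≫ fst (P.prod P') T))
          (tens C p p') *
          C.pull (prodMap (snd P (P'.prod T)) (snd P (P'.prod T)) ≫
            prodMap (snd P' T) (snd P' T)) r := by
      rw [ha, ← C.pull_comp, ← e1, ← e2, C.pull_comp, C.pull_comp, ← map_mul]
      rfl
    have h3 : C.pull (prodMap (aJ P P' T ≫ fst (P.prod P') T) (aJ P P' T ≫ fst (P.prod P') T))
        (tens C p p') = C.pull (prodMap (fst P (P'.prod T)) (fst P (P'.prod T))) p *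
          C.pull (prodMap (snd P (P'.prod T)) (snd P (P'.prod T)) ≫
            prodMap (fst P' T) (fst P' T)) p' := by
      rw [tens, map_mul, ← C.pull_comp, ← C.pull_comp, e3, e4]
    rw [h1, h2, h3, mul_assoc]

/-- The pieces of weight `m` of the motive of `X`: the correspondences `u × v`, and the
correspondences factoring through a part of a product of curves and surfaces. -/
inductive IsPiece (C : TheoryData.{u, v, 0} 𝒱 ℚ) (Q : ∀ S : 𝒱.Obj, C.A (S.prod S) → Prop) :
    ℕ → (X : 𝒱.Obj) → C.A (X.prod X) → Prop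
  | zero (X : 𝒱.Obj) (c : ℕ) (v u : C.A X) (hc : c ≤ X.dim) (hv : C.Deg (X.dim - c) v)
      (hu : C.Deg c u) : IsPiece C Q (2 * c) X (C.ext v u)
  | odd (X : 𝒱.Obj) (n c : ℕ) (P : 𝒱.Obj) (p : C.A (P.prod P)) (hp : IsPart Q n P p)
      (f : C.A (X.prod P)) (g : C.A (P.prod X)) (hf : C.Deg (X.dim - c) f)
      (hg : C.Deg (P.dim + c) g) : IsPiece C Q (n + 2 * c) X (C.comp f (C.comp p g))

variable {K : Type w} [Field K] {H : WeilTheoryData.{u, v, w} C K} [hH : IsWeilProj H]

include hH

lemma IsPiece.tens (hQ : AllTranscendental H Q) {m m' : ℕ} {R : C.A (X.prod X)}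
    {R' : C.A (Z.prod Z)} (h : IsPiece C Q m X R) (h' : IsPiece C Q m' Z R') :
    IsPiece C Q (m + m') (X.prod Z) (tens C R R') := by
  cases h with
  | zero _ c v u hc hv hu =>
    cases h' with
    | zero _ c' v' u' hc' hv' hu' =>
      rw [tens_ext_ext, ← mul_add]
      apply IsPiece.zero
      · rw [dim_prod]; omega
      · exact gr_congr (by rw [dim_prod]; push_cast; ring) (ext_mem' hv hv')
      · exact gr_congr (by push_cast; ring) (ext_mem' hu hu')
    | odd _ n c' P p hp f g hf hg =>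
      rw [tens_ext_left]
      have e1 : C.comp (wg C (snd X Z) (C.pull (fst X Z) v)) (C.comp (C.comp f (C.comp p g))
          (tp C (wg C (snd X Z) (C.pull (fst X Z) u)))) =
          C.comp (C.comp (wg C (snd X Z) (C.pull (fst X Z) v)) f) (C.comp p
            (C.comp g (tp C (wg C (snd X Z) (C.pull (fst X Z) u))))) := by
        simp only [comp_assoc C]
      have e2 : 2 * c + (n + 2 * c') = n + 2 * (c + c') := by ring
      rw [e1, e2]
      apply IsPiece.odd _ _ _ _ _ hp
      · have h1 : wg C (snd X Z) (C.pull (fst X Z) v) ∈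
            C.gr ((X.prod Z).prod Z) ((X.prod Z).dim + (-(c : ℤ))) :=
          gr_congr (by rw [dim_prod]; push_cast; ring) (wg_mem (snd X Z) (C.pull_mem (fst X Z) hv))
        have h2 : f ∈ C.gr (Z.prod P) (Z.dim + (-(c' : ℤ))) := gr_congr (by ring) hf
        exact gr_congr (by push_cast; ring) (comp_mem C h1 h2)
      · have h1 : tp C (wg C (snd X Z) (C.pull (fst X Z) u)) ∈
            C.gr (Z.prod (X.prod Z)) (Z.dim + (c : ℤ)) :=
          gr_congr (by ring) (tp_mem C (wg_mem (snd X Z) (C.pull_mem (fst X Z) hu)))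
        exact gr_congr (by push_cast; ring) (comp_mem C hg h1)
  | odd _ n c P p hp f g hf hg =>
    cases h' with
    | zero _ c' v' u' hc' hv' hu' =>
      rw [tens_ext_right]
      have e1 : C.comp (wg C (fst X Z) (C.pull (snd X Z) v')) (C.comp (C.comp f (C.comp p g))
          (tp C (wg C (fst X Z) (C.pull (snd X Z) u')))) =
          C.comp (C.comp (wg C (fst X Z) (C.pull (snd X Z) v')) f) (C.comp p
            (C.comp g (tp C (wg C (fst X Z) (C.pull (snd X Z) u'))))) := by
        simp only [comp_assoc C]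
      have e2 : (n + 2 * c) + 2 * c' = n + 2 * (c + c') := by ring
      rw [e1, e2]
      apply IsPiece.odd _ _ _ _ _ hp
      · have h1 : wg C (fst X Z) (C.pull (snd X Z) v') ∈
            C.gr ((X.prod Z).prod X) ((X.prod Z).dim + (-(c' : ℤ))) :=
          gr_congr (by rw [dim_prod]; push_cast; ring) (wg_mem (fst X Z) (C.pull_mem (snd X Z) hv'))
        have h2 : f ∈ C.gr (X.prod P) (X.dim + (-(c : ℤ))) := gr_congr (by ring) hf
        exact gr_congr (by push_cast; ring) (comp_mem C h1 h2)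
      · have h1 : tp C (wg C (fst X Z) (C.pull (snd X Z) u')) ∈
            C.gr (X.prod (X.prod Z)) (X.dim + (c' : ℤ)) :=
          gr_congr (by ring) (tp_mem C (wg_mem (fst X Z) (C.pull_mem (snd X Z) hu')))
        exact gr_congr (by push_cast; ring) (comp_mem C hg h1)
    | odd _ n' c' P' p' hp' f' g' hf' hg' =>
      obtain ⟨P₀, p₀, a, h₀, ha⟩ := hp.tens_part hp'
      have e0 : C.pull (prodMap a a) p₀ = C.comp (wg C a 1) (C.comp p₀ (tp C (wg C a 1))) := by
        rw [wg_comp_comp, TheoryData.ext, map_one, map_one, mul_one, mul_one]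
      have e1 : Pool.Agent.TH133.tens C (C.comp f (C.comp p g)) (C.comp f' (C.comp p' g')) =
          C.comp (C.comp (Pool.Agent.TH133.tens C f f') (wg C a 1)) (C.comp p₀
            (C.comp (tp C (wg C a 1)) (Pool.Agent.TH133.tens C g g'))) := by
        rw [← tens_comp'', ← tens_comp'', ha, e0]
        simp only [comp_assoc C]
      have e2 : (n + 2 * c) + (n' + 2 * c') = (n + n') + 2 * (c + c') := by ring
      have hd0 := h₀.dim_eq hQ
      have hd1 := hp.dim_eq hQ
      have hd2 := hp'.dim_eq hQ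
      rw [e1, e2]
      apply IsPiece.odd _ _ _ _ _ h₀
      · have h1 : Pool.Agent.TH133.tens C f f' ∈
            C.gr ((X.prod Z).prod (P.prod P')) ((X.prod Z).dim + (-(c : ℤ) - c')) :=
          gr_congr (by rw [dim_prod]; push_cast; ring) (tens_mem C hf hf')
        have h2 : wg C a 1 ∈ C.gr ((P.prod P').prod P₀) ((P.prod P').dim + 0) :=
          gr_congr (by rw [dim_prod, hd0, hd1, hd2]; push_cast; ring) (wg_mem a (C.one_mem _))
        exact gr_congr (by push_cast; ring) (comp_mem C h1 h2)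
      · have h1 : tp C (wg C a 1) ∈ C.gr (P₀.prod (P.prod P')) (P₀.dim + 0) :=
          gr_congr (by ring) (tp_mem C (wg_mem a (C.one_mem _)))
        have h2 : Pool.Agent.TH133.tens C g g' ∈
            C.gr ((P.prod P').prod (X.prod Z)) ((P.prod P').dim + ((c : ℤ) + c')) :=
          gr_congr (by rw [dim_prod]; push_cast; ring) (tens_mem C hg hg')
        exact gr_congr (by push_cast; ring) (comp_mem C h1 h2)

/-- The vanishing statements for the product of two parts. -/
theorem tens_part_van (hF : FibreProperty C) {N : ∀ X : 𝒱.Obj, ℕ → Submodule ℚ (C.A X)}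
    (hN : IsAbelJacobiKernel H N) (hQ : AllTranscendental H Q) {d : ℕ}
    (hI : InjectiveUpTo Q N d) {n n' : ℕ} {p : C.A (P.prod P)} {P' : 𝒱.Obj}
    {p' : C.A (P'.prod P')} (h : IsPart Q n P p) (h' : IsPart Q n' P' p') (e : ℤ)
    (η : C.A (P.prod P')) (hη : η ∈ C.gr (P.prod P') e) (he : e ≤ d)
    (hcase : 2 * e < n + n' ∨ (2 * e = n + n' ∧ H.cl η = 0)) :
    C.comp p (C.comp η p') = 0 := by
  obtain ⟨P₀, p₀, a, h₀, ha⟩ := h.tens_part h'
  have hd0 := h₀.dim_eq hQ
  have hd1 := h.dim_eq hQ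
  have hd2 := h'.dim_eq hQ
  have hv := h₀.van hF hN hQ hI
  have e0 : Pool.Agent.TH133.tens C p p' =
      C.comp (C.graph a) (C.comp p₀ (tp C (C.graph a))) := by
    have h1 := wg_comp_comp a a 1 1 p₀
    rw [TheoryData.ext, map_one, map_one, mul_one, mul_one] at h1
    rw [ha, ← h1]
    rfl
  have e1 : C.comp p (C.comp η p') = C.act (Pool.Agent.TH133.tens C p p') η := by
    rw [act_tens C (ch_comm C), h.tp_eq hQ, comp_assoc C]
  have h1 : C.act (C.graph a) η ∈ C.gr P₀ e := by
    rw [C.act_graph]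
    have := C.push_mem a hη
    exact gr_congr (by rw [dim_prod, hd0, hd1, hd2]; push_cast; ring) this
  rw [e1, e0, C.act_comp, C.act_comp]
  rcases hcase with h2 | ⟨h2, h3⟩
  · rw [hv.lt e _ he (by push_cast; exact h2) h1, TheoryData.act_map_zero]
  · rw [hv.eq e _ he (by push_cast; exact h2) h1 (act_hom h3), TheoryData.act_map_zero]

end chow

end Pool.Agent.Y148.BB
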