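import Pool.Agent.Y148.BB.Corr

/-!
# Vanishing for the primitive parts of products of curves and surfaces
-/

open CategoryTheory AlgebraicGeometry

universe u v w

namespace Pool.Agent.Y148.BB

open Pool.Agent.H914 Pool.Agent.H914.VarClass Pool.Agent.H914.VarClass.Obj Pool.Agent.W492.BB
  Pool.Agent.W550.Corr Pool.Agent.TH133

set_option linter.unusedSectionVars false
set_option linter.unusedVariables false

variable {k : Type u} [Field k] {𝒱 : VarClass k}

section weil

variable {C : TheoryData.{u, v, 0} 𝒱 ℚ} [hC : IsChowProj C] {K : Type w} [Field K]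
  (H : WeilTheoryData.{u, v, w} C K) [hH : IsWeilProj H] {X Y Z W T P S : 𝒱.Obj}
  {Q : ∀ S : 𝒱.Obj, C.A (S.prod S) → Prop}

/-- All the pairs in `Q` are transcendental projectors of surfaces. -/
def AllTranscendental (Q : ∀ S : 𝒱.Obj, C.A (S.prod S) → Prop) : Prop :=
  ∀ (S : 𝒱.Obj) (q : C.A (S.prod S)), Q S q → IsTranscendental H S q

variable {H}

include hC hH

lemma act_hom {Γ : C.A (X.prod Y)} {z : C.A X} (hz : H.cl z = 0) : H.cl (C.act Γ z) = 0 := by
  rw [cl_act H, hz, TheoryData.act_map_zero]

lemma IsTranscendental.comp_ck {q : C.A (S.prod S)} {π : ℕ → C.A (S.prod S)}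
    (hπ : IsCK H S π) (h2 : C.comp (π 2) q = q) (m : ℕ) :
    C.comp (π m) q = if m = 2 then q else 0 := by
  split_ifs with h
  · rw [h, h2]
  · rw [← h2, ← comp_assoc C, hπ.orth m 2 h, zero_comp]

lemma IsFactor.dim_eq (hQ : AllTranscendental H Q) {m : ℕ} {r : C.A (T.prod T)}
    (h : IsFactor Q m T r) : T.dim = m := by
  cases h with
  | curve _ o hT ho hd => exact hT
  | surface _ _ hq => exact (hQ _ _ hq).dim_eq

lemma IsFactor.mem (hQ : AllTranscendental H Q) {m : ℕ} {r : C.A (T.prod T)}
    (h : IsFactor Q m T r) : r ∈ C.gr (T.prod T) T.dim := by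
  cases h with
  | curve _ o hT ho hd => exact odd_mem hT ho
  | surface _ _ hq =>
    exact gr_congr (by rw [(hQ _ _ hq).dim_eq]; norm_num) (hQ _ _ hq).deg

lemma IsFactor.idem (hQ : AllTranscendental H Q) {m : ℕ} {r : C.A (T.prod T)}
    (h : IsFactor Q m T r) : C.comp r r = r := by
  cases h with
  | curve _ o hT ho hd => exact odd_odd hT ho hd
  | surface _ _ hq => exact (hQ _ _ hq).idem

lemma IsFactor.tp_eq (hQ : AllTranscendental H Q) {m : ℕ} {r : C.A (T.prod T)}
    (h : IsFactor Q m T r) : tp C r = r := by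
  cases h with
  | curve _ o hT ho hd => exact tp_odd o
  | surface _ _ hq => exact (hQ _ _ hq).self_dual

lemma IsFactor.exists_ck (hQ : AllTranscendental H Q) {n : ℕ} {r : C.A (T.prod T)}
    (h : IsFactor Q n T r) :
    ∃ q, IsCK H T q ∧ ∀ m, C.comp (q m) r = if m = n then r else 0 := by
  cases h with
  | curve _ o hT ho hd =>
    refine ⟨curveCK C o, curveCK_isCK H hT ho hd, fun m => ?_⟩
    have h1 := curveCK_comp hT ho hd m 1
    have e : curveCK C o 1 = oddProj C o := rfl
    rw [e] at h1
    rw [h1]
    split_ifs with hm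
    · rw [hm]; rfl
    · rfl
  | surface _ _ hq =>
    obtain ⟨x, π, -, -, -, hπ, -, -, h2, -⟩ := (hQ _ _ hq).exists_ck
    exact ⟨π, hπ, IsTranscendental.comp_ck hπ h2⟩

lemma IsPart.dim_eq (hQ : AllTranscendental H Q) {n : ℕ} {p : C.A (P.prod P)}
    (h : IsPart Q n P p) : P.dim = n := by
  induction h with
  | factor n T r hr => exact hr.dim_eq hQ
  | prod n m P T p r hp hr ih => rw [dim_prod, ih, hr.dim_eq hQ]

lemma IsPart.mem (hQ : AllTranscendental H Q) {n : ℕ} {p : C.A (P.prod P)}
    (h : IsPart Q n P p) : p ∈ C.gr (P.prod P) P.dim := by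
  induction h with
  | factor n T r hr => exact hr.mem hQ
  | prod n m P T p r hp hr ih =>
    have := tens_mem C ih (hr.mem hQ)
    rw [dim_prod]
    push_cast
    exact this

lemma IsPart.idem (hQ : AllTranscendental H Q) {n : ℕ} {p : C.A (P.prod P)}
    (h : IsPart Q n P p) : C.comp p p = p := by
  induction h with
  | factor n T r hr => exact hr.idem hQ
  | prod n m P T p r hp hr ih => rw [tens_comp', ih, hr.idem hQ]

lemma IsPart.tp_eq (hQ : AllTranscendental H Q) {n : ℕ} {p : C.A (P.prod P)}
    (h : IsPart Q n P p) : tp C p = p := by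
  induction h with
  | factor n T r hr => exact hr.tp_eq hQ
  | prod n m P T p r hp hr ih => rw [tp_tens, ih, hr.tp_eq hQ]

lemma IsPart.act_act (hQ : AllTranscendental H Q) {n : ℕ} {p : C.A (P.prod P)}
    (h : IsPart Q n P p) (z : C.A P) : C.act p (C.act p z) = C.act p z := by
  rw [← C.act_comp, h.idem hQ]

lemma IsPart.exists_ck (hQ : AllTranscendental H Q) {n : ℕ} {p : C.A (P.prod P)}
    (h : IsPart Q n P p) :
    ∃ q, IsCK H P q ∧ ∀ m, C.comp (q m) p = if m = n then p else 0 := by
  induction h with
  | factor n T r hr => exact hr.exists_ck hQ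
  | prod n l P T p r hp hr ih =>
    obtain ⟨q, hq, hqp⟩ := ih
    obtain ⟨s, hs, hsr⟩ := hr.exists_ck hQ
    refine ⟨prodCK C q s, hq.prod hs, fun m => ?_⟩
    unfold prodCK
    rw [sum_comp]
    simp_rw [tens_comp', hqp, hsr]
    split_ifs with hm
    · subst hm
      rw [Finset.sum_eq_single n]
      · rw [if_pos rfl, if_pos (by omega)]
      · intro i _ hi
        rw [if_neg hi, tens_zero_left]
      · intro h2
        rw [Finset.mem_range] at h2
        omega
    · apply Finset.sum_eq_zero
      intro i hi
      rw [Finset.mem_range] at hi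
      by_cases h2 : i = n
      · rw [if_neg (by omega : ¬ m - i = l), tens_zero_right]
      · rw [if_neg h2, tens_zero_left]

lemma IsPart.kills (hQ : AllTranscendental H Q) {n : ℕ} {p : C.A (P.prod P)}
    (h : IsPart Q n P p) {m : ℤ} (hm : m ≠ n) : Kills H p m := by
  intro a ha
  have ha' : a ∈ H.gr P m := ha
  rcases lt_or_ge m 0 with h0 | h0
  · rw [H.gr_neg P m h0] at ha'
    rw [(Submodule.mem_bot _).1 ha', TheoryData.act_map_zero]
  · obtain ⟨m, rfl⟩ := Int.eq_ofNat_of_zero_le h0
    obtain ⟨q, hq, hqp⟩ := h.exists_ck hQ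
    rw [← hq.act_self m a ha, ← actH_comp H, hqp, if_neg (by exact_mod_cast hm), actH_zero]

variable (H) (N : ∀ X : 𝒱.Obj, ℕ → Submodule ℚ (C.A X))

/-- The vanishing statements in codimension at most `d` for a part of weight `n`. -/
structure PartVan (d n : ℕ) (P : 𝒱.Obj) (p : C.A (P.prod P)) : Prop where
  lt : ∀ (j : ℤ) (z : C.A P), j ≤ d → 2 * j < n → z ∈ C.gr P j → C.act p z = 0
  eq : ∀ (j : ℤ) (z : C.A P), j ≤ d → 2 * j = n → z ∈ C.gr P j → H.cl z = 0 → C.act p z = 0
  aj : ∀ (j : ℕ) (z : C.A P), j ≤ d → 2 * j = n + 1 → z ∈ N P j → C.act p z = 0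

variable {H} {N}

omit hC hH in
lemma IsPart.pos {n : ℕ} {p : C.A (P.prod P)} (h : IsPart Q n P p) : 1 ≤ n := by
  induction h with
  | factor n T r hr => cases hr <;> omega
  | prod n m P T p r hp hr ih => omega

theorem IsPart.aj (hQ : AllTranscendental H Q) (hN : IsAbelJacobiKernel H N) {d : ℕ}
    (hI : InjectiveUpTo Q N d) {n : ℕ} {p : C.A (P.prod P)} (h : IsPart Q n P p) (j : ℕ)
    (z : C.A P) (hd : j ≤ d) (hj : 2 * j = n + 1) (hz : z ∈ N P j) : C.act p z = 0 := by
  rcases lt_or_ge j 2 with h2 | h2
  · have h1 := h.pos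
    obtain rfl : j = 1 := by omega
    rw [hN.abel P z hz, TheoryData.act_map_zero]
  · obtain rfl : n = 2 * j - 1 := by omega
    apply hI j h2 hd P p h
    · apply hN.stable P P j j p _ z hz
      have := h.mem hQ
      rwa [add_sub_cancel_right]
    · exact h.act_act hQ z

/-- The case of one curve. -/
theorem van_curve_one (hN : IsAbelJacobiKernel H N) (hQ : AllTranscendental H Q) {d : ℕ}
    (hI : InjectiveUpTo Q N d) {o : C.A T} (hT : T.dim = 1) (ho : C.Deg 1 o)
    (hd : HasDegree C o 1) : PartVan H N d 1 T (oddProj C o) := by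
  have hp : IsPart Q 1 T (oddProj C o) := IsPart.factor 1 T _ (IsFactor.curve T o hT ho hd)
  refine ⟨fun j z _ hj hz => ?_, fun j z _ hj hz hz' => ?_,
    fun j z hjd hj hz => hp.aj hQ hN hI j z hjd hj hz⟩
  · rcases lt_or_ge j 0 with h0 | h0
    · rw [C.gr_neg T j h0] at hz
      rw [(Submodule.mem_bot _).1 hz, TheoryData.act_map_zero]
    · obtain rfl : j = 0 := by
        push_cast at hj
        omega
      obtain ⟨q, rfl⟩ := hC.gr_zero T z hz
      have e1 : C.act (C.ext o (1 : C.A T)) 1 = 1 := by
        rw [act_ext' (q := 1) (by rwa [mul_one]), one_smul]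
      have e2 : C.act (C.ext (1 : C.A T) o) 1 = 0 := by
        apply act_ext_zero_of_lt (i := 0)
        · rw [mul_one]
          exact C.one_mem T
        · rw [hT]; norm_num
      rw [act_map_smul, oddProj, TheoryData.act_sub, TheoryData.act_sub, act_dg, e1, e2,
        sub_self, sub_zero, smul_zero]
  · exfalso
    push_cast at hj
    omega

/-- The case of one surface. -/
theorem van_surface_one (hN : IsAbelJacobiKernel H N) (hQ : AllTranscendental H Q) {d : ℕ}
    {q : C.A (S.prod S)} (hq : Q S q) : PartVan H N d 2 S q := by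
  have hS := hQ S q hq
  refine ⟨fun j z _ hj hz => ?_, fun j z _ hj hz hz' => ?_, fun j z hjd hj hz => ?_⟩
  · rcases lt_or_ge j 0 with h0 | h0
    · rw [C.gr_neg S j h0] at hz
      rw [(Submodule.mem_bot _).1 hz, TheoryData.act_map_zero]
    · obtain rfl : j = 0 := by
        push_cast at hj
        omega
      obtain ⟨c, rfl⟩ := hC.gr_zero S z hz
      obtain ⟨x, π, hx, hxd, -, hπ, hπ0, -, h2, -⟩ := hS.exists_ck
      have e1 : C.act (π 0) 1 = 1 := by
        rw [hπ0, act_ext' (q := 1) (by rwa [mul_one]), one_smul]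
      have e2 : C.act q 1 = 0 := by
        rw [← e1, ← C.act_comp, IsTranscendental.comp_ck hπ h2, if_neg (by norm_num),
          TheoryData.act_zero]
      rw [act_map_smul, e2, smul_zero]
  · apply hS.divisor
    have h1 : j = 1 := by
      push_cast at hj
      omega
    rwa [h1] at hz
  · omega

/-- Adding a curve. -/
theorem van_curve_step (hF : FibreProperty C) (hN : IsAbelJacobiKernel H N)
    (hQ : AllTranscendental H Q) {d : ℕ} (hI : InjectiveUpTo Q N d) {n : ℕ}
    {p : C.A (P.prod P)} (hp : IsPart Q n P p) (ih : PartVan H N d n P p) {o : C.A T}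
    (hT : T.dim = 1) (ho : C.Deg 1 o) (hd : HasDegree C o 1) :
    PartVan H N d (n + 1) (P.prod T) (tens C p (oddProj C o)) := by
  have hcur : IsPart Q 1 T (oddProj C o) := IsPart.factor 1 T _ (IsFactor.curve T o hT ho hd)
  have hprod : IsPart Q (n + 1) (P.prod T) (tens C p (oddProj C o)) :=
    IsPart.prod n 1 P T p _ hp (IsFactor.curve T o hT ho hd)
  -- the main step
  have key : ∀ (j : ℤ) (z : C.A (P.prod T)), j ≤ d → 2 * j ≤ n + 1 → z ∈ C.gr (P.prod T) j →
      (2 * j = n + 1 → H.cl z = 0) → C.act (tens C p (oddProj C o)) z = 0 := by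
    intro j z hjd hj hz hz0
    set z' := C.act (tens C p (oddProj C o)) z with hz'
    have hz'm : z' ∈ C.gr (P.prod T) j := act_mem0 C (hprod.mem hQ) hz
    have hz'e : z' = C.comp (C.comp p z) (oddProj C o) := by
      rw [hz', act_tens C (ch_comm C), hp.tp_eq hQ]
    have htp : tp C z' = C.comp (oddProj C o) (C.comp (tp C z) p) := by
      rw [hz'e, tp_comp C (ch_comm C), tp_comp C (ch_comm C), hp.tp_eq hQ, tp_odd]
    have hfib : ∀ t : C.A T, C.Deg 1 t →
        C.down (fst P T) (C.mul z' (C.up (snd P T) t)) = 0 := by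
      intro t ht
      have e1 : C.down (fst P T) (C.mul z' (C.up (snd P T) t)) = C.act (tp C z') t :=
        (act_tp C z' t).symm
      rw [e1, htp, C.act_comp, C.act_comp]
      set u := C.act (oddProj C o) t with hu
      have hum : u ∈ C.gr T 1 := act_mem0 C (odd_mem hT ho) ht
      have huc : H.cl u = 0 := by
        rw [hu, cl_act H]
        exact hcur.kills hQ (m := 2 * 1) (by norm_num) _ (H.cl_mem ht)
      have hzt : tp C z ∈ C.gr (T.prod P) (T.dim + (j - 1)) := by
        have := tp_mem C hz
        rw [hT]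
        push_cast
        rwa [add_sub_cancel]
      have hwm : C.act (tp C z) u ∈ C.gr P j := by
        have := act_mem' C hzt hum
        rwa [add_sub_cancel] at this
      have hwc : H.cl (C.act (tp C z) u) = 0 := act_hom huc
      rcases lt_or_ge (2 * j) n with h1 | h1
      · exact ih.lt j _ hjd h1 hwm
      · rcases eq_or_lt_of_le h1 with h2 | h2
        · exact ih.eq j _ hjd h2.symm hwm hwc
        · have h3 : 2 * j = n + 1 := by omega
          have h4 : 0 ≤ j := by omega
          obtain ⟨i, rfl⟩ := Int.eq_ofNat_of_zero_le h4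
          apply ih.aj i _ (by exact_mod_cast hjd) (by exact_mod_cast h3)
          apply hN.kills T P 1 i (tp C z) _ _ u (by exact_mod_cast hum) huc
          · have := tp_mem C hz
            rw [hT]
            push_cast
            rwa [add_sub_cancel_left]
          · intro a _
            rw [cl_tp, hz0 h3, tp_zero, TheoryData.act_zero]
    have hspan := hF P T j z' hT hz'm hfib
    have hz'z' : C.act (tens C p (oddProj C o)) z' = z' := by
      rw [hz']
      exact hprod.act_act hQ z
    rw [← hz'z']
    have hle : Submodule.span ℚ {c | ∃ (x : C.A P) (t : C.A T), C.Deg (j - 1) x ∧ C.Deg 1 t ∧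
        c = C.ext x t} ≤ LinearMap.ker (C.actL (tens C p (oddProj C o))) := by
      rw [Submodule.span_le]
      rintro c ⟨x, t, hx, ht, rfl⟩
      change C.act (tens C p (oddProj C o)) (C.ext x t) = 0
      rw [act_tens_ext C p (oddProj C o) (fun f c => ch_comm C _ _),
        ih.lt (j - 1) x (by omega) (by omega) hx, TheoryData.ext_zero_left]
    exact hle hspan
  refine ⟨fun j z hjd hj hz => ?_, fun j z hjd hj hz hz' => ?_,
    fun j z hjd hj hz => hprod.aj hQ hN hI j z hjd hj hz⟩
  · apply key j z hjd (by push_cast at hj; omega) hz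
    intro h1
    push_cast at hj
    omega
  · apply key j z hjd (by push_cast at hj; omega) hz
    intro _
    exact hz'

omit hC hH in
lemma curve_sum (o : C.A T) :
    dg C T = C.ext o 1 + oddProj C o + C.ext 1 o := by
  rw [oddProj]; abel

/-- Adding a surface. -/
theorem van_surface_step (hF : FibreProperty C) (hN : IsAbelJacobiKernel H N)
    (hQ : AllTranscendental H Q) {d : ℕ} (hI : InjectiveUpTo Q N d) {n : ℕ}
    {p : C.A (P.prod P)} (hp : IsPart Q n P p) (ih : PartVan H N d n P p)
    {q : C.A (S.prod S)} (hq : Q S q) :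
    PartVan H N d (n + 2) (P.prod S) (tens C p q) := by
  have hS := hQ S q hq
  have hprod : IsPart Q (n + 2) (P.prod S) (tens C p q) :=
    IsPart.prod n 2 P S p _ hp (IsFactor.surface S q hq)
  obtain ⟨x, π, hx, hxd, hpen, hπ, hπ0, hπ4, h2, -⟩ := hS.exists_ck
  have hqx : C.act q x = 0 := by
    have e1 : C.act (π 4) x = x := by
      rw [hπ4, act_ext' (q := 1) (by rwa [one_mul]), one_smul]
    rw [← e1, ← C.act_comp, IsTranscendental.comp_ck hπ h2, if_neg (by norm_num),
      TheoryData.act_zero]
  -- the main step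
  have key : ∀ (j : ℤ) (z : C.A (P.prod S)), j ≤ d → 2 * j ≤ n + 2 → z ∈ C.gr (P.prod S) j →
      (2 * j = n + 2 → H.cl z = 0) → C.act (tens C p q) z = 0 := by
    intro j z hjd hj hz hz0
    set z' := C.act (tens C p q) z with hz'
    have hz'm : z' ∈ C.gr (P.prod S) j := act_mem0 C (hprod.mem hQ) hz
    have hz'e : z' = C.comp (C.comp p z) q := by
      rw [hz', act_tens C (ch_comm C), hp.tp_eq hQ]
    have hpz' : C.comp p z' = z' := by
      rw [hz'e, comp_assoc C, ← comp_assoc C p p, hp.idem hQ]
    have htp : tp C z' = C.comp q (C.comp (tp C z) p) := by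
      rw [hz'e, tp_comp C (ch_comm C), tp_comp C (ch_comm C), hp.tp_eq hQ, hS.self_dual]
    have hz'c : H.cl z' = 0 := by
      by_cases h1 : 2 * j = n + 2
      · exact act_hom (hz0 h1)
      · rw [hz', cl_act H]
        exact hprod.kills hQ (m := 2 * j) (by push_cast; exact h1) _ (H.cl_mem hz)
    -- the restriction to the curves of the pencil
    have hfib : ∀ (T : 𝒱.Obj) (i : T ⟶ S) (o : C.A T), T.dim = 1 → C.Deg 1 o →
        HasDegree C o 1 → C.down i o = x → C.up (prodMap (𝟙 P) i) z' = 0 := by
      intro T i o hT ho hd hio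
      change C.push i o = x at hio
      set y := C.up (prodMap (𝟙 P) i) z' with hy
      have hye : y = C.comp z' (tp C (C.graph i)) := pull_eq_comp i z'
      have hym : y ∈ C.gr (P.prod T) j := C.pull_mem _ hz'm
      have hyc : H.cl y = 0 := by
        rw [hy]
        change H.cl (C.pull _ z') = 0
        rw [H.cl_pull, hz'c, map_zero]
      have htpy : ∀ t, C.act (tp C y) t = C.act (tp C z') (C.push i t) := by
        intro t
        rw [hye, tp_comp C (ch_comm C), tp_tp, C.act_comp, C.act_graph]
      have hy0 : C.comp y (C.ext o (1 : C.A T)) = 0 := by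
        rw [comp_ext, htpy, hio, htp, C.act_comp, hqx, TheoryData.act_map_zero,
          TheoryData.ext_zero_left]
      have hy2 : C.comp y (C.ext 1 o) = 0 := by
        have h3 : C.push i 1 ∈ C.gr S 1 := by
          have := C.push_mem i (C.one_mem T)
          exact gr_congr (by rw [hT, hS.dim_eq]; norm_num) this
        rw [comp_ext, htpy, htp, C.act_comp, hS.divisor _ h3, TheoryData.act_map_zero,
          TheoryData.ext_zero_left]
      have hstep := van_curve_step hF hN hQ hI hp ih hT ho hd
      have hy1 : C.comp y (oddProj C o) = C.act (tens C p (oddProj C o)) y := by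
        rw [act_tens C (ch_comm C), hp.tp_eq hQ, hye, ← comp_assoc C p, hpz']
      have hy1' : C.comp y (oddProj C o) = 0 := by
        rw [hy1]
        rcases lt_or_ge (2 * j) ((n : ℤ) + 1) with h1 | h1
        · exact hstep.lt j y hjd (by push_cast; exact h1) hym
        · rcases eq_or_lt_of_le h1 with h3 | h3
          · exact hstep.eq j y hjd (by push_cast; exact h3.symm) hym hyc
          · have h5 : 2 * j = n + 2 := by omega
            have h4 : 0 ≤ j := by omega
            obtain ⟨l, rfl⟩ := Int.eq_ofNat_of_zero_le h4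
            apply hstep.aj l y (by exact_mod_cast hjd) (by push_cast at h5 ⊢; omega)
            have hz'N : z' ∈ N (P.prod S) l := by
              apply hN.kills (P.prod S) (P.prod S) l l (tens C p q) _ _ z hz (hz0 h5)
              · exact gr_congr (by ring) (hprod.mem hQ)
              · exact hprod.kills hQ (by push_cast; omega)
            have e1 : y = C.act (C.cograph (prodMap (𝟙 P) i)) z' := by
              rw [C.act_cograph]
            rw [e1]
            exact hN.stable (P.prod S) (P.prod T) l l _ (gr_congr (by ring) (cograph_mem _)) _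
              hz'N
      rw [← comp_dg C y, curve_sum o, comp_add, comp_add, hy0, hy1', hy2, add_zero,
        add_zero]
    have hspan := hpen P j z' hz'm hfib
    have hz'z' : C.act (tens C p q) z' = z' := by
      rw [hz']
      exact hprod.act_act hQ z
    rw [← hz'z']
    have hle : Submodule.span ℚ {c | ∃ (T : 𝒱.Obj) (i : T ⟶ S) (w : C.A (P.prod T)),
        T.dim = 1 ∧ C.Deg (j - 1) w ∧ c = C.down (prodMap (𝟙 P) i) w} ≤
        LinearMap.ker (C.actL (tens C p q)) := by
      rw [Submodule.span_le]
      rintro c ⟨T, i, w, hT, hw, rfl⟩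
      change C.act (tens C p q) (C.push (prodMap (𝟙 P) i) w) = 0
      obtain ⟨o, ho, ho1, ho2⟩ := W492.BB.exists_deg_one C T
      have hd : HasDegree C o 1 := by
        intro Y
        rw [one_smul]
        exact ⟨ho2 Y, ho1 Y⟩
      rw [hT] at ho
      have ho : C.Deg 1 o := by exact_mod_cast ho
      rw [← comp_graph, act_tens C (ch_comm C), hp.tp_eq hQ, ← comp_assoc C p]
      have hw0 : C.comp (C.comp (C.comp (C.comp p w) (C.ext o 1)) (C.graph i)) q = 0 := by
        have h3 : C.push i 1 ∈ C.gr S 1 := by
          have := C.push_mem i (C.one_mem T)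
          exact gr_congr (by rw [hT, hS.dim_eq]; norm_num) this
        rw [comp_ext, ext_comp, ext_comp, C.act_graph, hS.divisor _ h3,
          TheoryData.ext_zero_right]
      have hw1 : C.comp (C.comp p w) (oddProj C o) = 0 := by
        have hstep := van_curve_step hF hN hQ hI hp ih hT ho hd
        have h3 := hstep.lt (j - 1) w (by omega) (by push_cast; omega) hw
        rwa [act_tens C (ch_comm C), hp.tp_eq hQ] at h3
      have hw2 : C.comp (C.comp p w) (C.ext 1 o) = 0 := by
        have h3 : tp C w ∈ C.gr (T.prod P) (T.dim + (j - 2)) :=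
          gr_congr (by rw [hT]; push_cast; ring) (tp_mem C hw)
        have h4 : C.act (tp C w) 1 ∈ C.gr P (j - 2) :=
          gr_congr (by ring) (act_mem' C h3 (C.one_mem T))
        rw [comp_ext, tp_comp C (ch_comm C), hp.tp_eq hQ, C.act_comp,
          ih.lt (j - 2) _ (by omega) (by omega) h4, TheoryData.ext_zero_left]
      rw [← comp_dg C (C.comp p w), curve_sum o, comp_add, comp_add, hw1, hw2,
        add_zero, add_zero, hw0]
    exact hle hspan
  refine ⟨fun j z hjd hj hz => ?_, fun j z hjd hj hz hz' => ?_,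
    fun j z hjd hj hz => hprod.aj hQ hN hI j z hjd hj hz⟩
  · apply key j z hjd (by push_cast at hj; omega) hz
    intro h1
    push_cast at hj
    omega
  · apply key j z hjd (by push_cast at hj; omega) hz
    intro _
    exact hz'

/-- **The vanishing statements for the primitive parts of products of curves and surfaces.** -/
theorem IsPart.van (hF : FibreProperty C) (hN : IsAbelJacobiKernel H N)
    (hQ : AllTranscendental H Q) {d : ℕ} (hI : InjectiveUpTo Q N d) {n : ℕ}
    {p : C.A (P.prod P)} (h : IsPart Q n P p) : PartVan H N d n P p := by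
  induction h with
  | factor n T r hr =>
    cases hr with
    | curve _ o hT ho hd => exact van_curve_one hN hQ hI hT ho hd
    | surface _ _ hq => exact van_surface_one hN hQ hq
  | prod n m P T p r hp hr ih =>
    cases hr with
    | curve _ o hT ho hd => exact van_curve_step hF hN hQ hI hp ih hT ho hd
    | surface _ _ hq => exact van_surface_step hF hN hQ hI hp ih hq

end weil

end Pool.Agent.Y148.BB
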